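import Pool.Agent.V8Lead.OR.Seq

/-! Project OR (lead): the fluctuations of the sequence of the ordinates. -/

set_option autoImplicit false

namespace Pool.Agent.V8Lead.OR

open Filter Topology MeasureTheory
open SG (NZ ord)
open Pool.Agent.X112.GS (Anti Lln Tight Close inc)

noncomputable section

/-- the mean spacing -/
def sp (T : ℝ) : ℝ := 2 * Real.pi / Real.log T

lemma sp_pos {T : ℝ} (hT : 1 < T) : 0 < sp T := by
  have := Real.log_pos hT
  have := Real.pi_pos
  unfold sp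
  positivity

lemma sp_lim (M η : ℝ) (hη : 0 < η) : ∀ᶠ T : ℝ in atTop, M * sp T ≤ η := by
  have h : Tendsto (fun T : ℝ => M * (2 * Real.pi) / Real.log T) atTop (𝓝 0) :=
    Real.tendsto_log_atTop.const_div_atTop _
  filter_upwards [h.eventually (gt_mem_nhds hη)] with T hT
  unfold sp
  rw [mul_div_assoc'] 
  exact hT.le

lemma Wc_sp (T s t : ℝ) : Wc T s t = (NZ (t + s * sp T) : ℝ) - NZ t := Wc_eq T s t

lemma K_sp (K T : ℝ) : 2 * Real.pi * K / Real.log T = K * sp T := by
  unfold sp; ring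

/-- tightness at shifted points -/
lemma WT_shift (hWT : S_WT) (s ε : ℝ) (hs : 0 < s) (hε : 0 < ε) : ∃ Y : ℝ, 0 < Y ∧ ∀ M : ℝ, ∀ᶠ T : ℝ in atTop,
    volume.real {t : ℝ | T ≤ t ∧ t ≤ 2 * T ∧ Y ≤ Wc T s (t + M * sp T)} ≤ ε * T := by
  obtain ⟨Y, hY, h⟩ := hWT s (ε / 2) hs (by positivity)
  refine ⟨Y, hY, fun M => ?_⟩
  filter_upwards [h, sp_lim |M| 1 one_pos, eventually_gt_atTop 1, eventually_ge_atTop (4 / ε)] with T h1 h2 h3 h4
  refine (shift_meas (fun t => Y ≤ Wc T s t) T (M * sp T)).trans ?_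
  have h5 : |M * sp T| ≤ 1 := by
    rw [abs_mul, abs_of_pos (sp_pos h3)]
    exact h2
  rw [div_le_iff₀ hε] at h4
  linarith

theorem t_SA (hWM : S_WM) (hWT : S_WT) (hUI : S_UI) (hDY : S_DY) : S_SA := by
  intro w θ hθ
  obtain ⟨K, hK, h⟩ := transfer hUI hDY θ hθ
  obtain ⟨ε, hε, h⟩ := h K le_rfl
  obtain ⟨W, hW⟩ : ∃ W : ℝ, W = |w| + 1 := ⟨_, rfl⟩
  have hW0 : 0 < W := by rw [hW]; positivity
  have hwW : w ≤ W := by rw [hW]; linarith [le_abs_self w]
  obtain ⟨w2, hw2⟩ : ∃ w2 : ℝ, w2 = 2 * K + W + 2 := ⟨_, rfl⟩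
  obtain ⟨Y0, hY0, hT⟩ := WT_shift hWT (2 * w2) (ε / 4) (by rw [hw2]; linarith) (by positivity)
  obtain ⟨s0, hs0, hM⟩ := hWM 1 (fun _ => 1) (fun _ => 0) (fun i j _ => Subsingleton.elim i j)
    (by intro h; have := congrFun h 0; norm_num at this) (2 * Y0) (ε / 4) (by positivity) (by positivity)
  filter_upwards [eventually_ge_atTop ⌈s0⌉₊, eventually_ge_atTop 1] with r hr hr1
  have hr0 : s0 ≤ r := (Nat.le_ceil _).trans (by exact_mod_cast hr)
  have h1 := h Unit (fun _ n => |yy (n + r) - yy n - r| ≤ w) (by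
    filter_upwards [hM r hr0, hT (-w2), hT (r - w2), t_LOC (r + W) 1 (by positivity) one_pos, eventually_gt_atTop 1,
      sp_lim K 1 one_pos] with T t1 t2 t3 t4 t5 t6 _
    have hsp := sp_pos t5
    refine ⟨{t : ℝ | T ≤ t ∧ t ≤ 2 * T ∧ |∑ i : Fin 1, (1:ℝ) * (Wc T r (t + 0) - r)| ≤ 2 * Y0} ∪
      ({t : ℝ | T ≤ t ∧ t ≤ 2 * T ∧ Y0 ≤ Wc T (2 * w2) (t + -w2 * sp T)} ∪
        {t : ℝ | T ≤ t ∧ t ≤ 2 * T ∧ Y0 ≤ Wc T (2 * w2) (t + (r - w2) * sp T)}), ?_, ?_, ?_⟩
    · rintro t (⟨a, b, _⟩ | ⟨a, b, _⟩ | ⟨a, b, _⟩) <;> exact ⟨a, b⟩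
    · refine (measureReal_union_le _ _).trans ?_
      have := measureReal_union_le (μ := volume)
        {t : ℝ | T ≤ t ∧ t ≤ 2 * T ∧ Y0 ≤ Wc T (2 * w2) (t + -w2 * sp T)}
        {t : ℝ | T ≤ t ∧ t ≤ 2 * T ∧ Y0 ≤ Wc T (2 * w2) (t + (r - w2) * sp T)}
      have : 0 < ε * T := by positivity
      linarith
    · intro n hn n1 n2 hbad t ht
      rw [K_sp] at ht
      have a1 : T ≤ t := by linarith [ht.1]
      have a2 : t ≤ 2 * T := by linarith [ht.2]
      by_cases c2 : Y0 ≤ Wc T (2 * w2) (t + -w2 * sp T)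
      · exact Or.inr (Or.inl ⟨a1, a2, c2⟩)
      by_cases c3 : Y0 ≤ Wc T (2 * w2) (t + (r - w2) * sp T)
      · exact Or.inr (Or.inr ⟨a1, a2, c3⟩)
      refine Or.inl ⟨a1, a2, ?_⟩
      push Not at c2 c3
      rw [Wc_sp] at c2 c3
      have b1 := abs_le.1 hbad
      have b2 := t4 n (n + r) hn (by omega) (by linarith) (by linarith) (Or.inl (by linarith [b1.2]))
      have b3 := abs_le.1 b2
      have b4 : (ord (n + r) - ord n) * Real.log T / (2 * Real.pi) = (ord (n + r) - ord n) / sp T := by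
        unfold sp
        have := Real.log_pos t5
        have := Real.pi_pos
        field_simp
      rw [b4] at b3
      have b5 : |(ord (n + r) - ord n) / sp T - r| ≤ W + 1 := by
        rw [abs_le]; constructor <;> linarith [b1.1, b1.2, b3.1, b3.2]
      have b6 : |ord (n + r) - ord n - r * sp T| ≤ (W + 1) * sp T := by
        have e : ord (n + r) - ord n - r * sp T = ((ord (n + r) - ord n) / sp T - r) * sp T := by
          field_simp
        rw [e, abs_mul, abs_of_pos hsp]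
        exact mul_le_mul_of_nonneg_right b5 hsp.le
      have b7 := abs_le.1 b6
      have d1 : |t - ord n| < w2 * sp T := by
        have : K * sp T < w2 * sp T := mul_lt_mul_of_pos_right (by rw [hw2]; linarith) hsp
        rw [abs_lt]; constructor <;> linarith [ht.1, ht.2]
      have d2 : |t + r * sp T - ord (n + r)| < w2 * sp T := by
        have : K * sp T + (W + 1) * sp T < w2 * sp T := by
          have : (K + (W + 1)) * sp T < w2 * sp T := mul_lt_mul_of_pos_right (by rw [hw2]; linarith) hsp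
          linarith
        rw [abs_lt]; constructor <;> linarith [ht.1, ht.2, b7.1, b7.2]
      have g1 := near_ord hn d1
      have g2 := near_ord (show 1 ≤ n + r by omega) d2
      have e1 : t + -w2 * sp T + 2 * w2 * sp T = t + w2 * sp T := by ring
      have e2 : t + -w2 * sp T = t - w2 * sp T := by ring
      have e3 : t + (r - w2) * sp T + 2 * w2 * sp T = t + r * sp T + w2 * sp T := by ring
      have e4 : t + (r - w2) * sp T = t + r * sp T - w2 * sp T := by ring
      rw [e1, e2] at c2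
      rw [e3, e4] at c3
      simp only [Finset.univ_unique, Finset.sum_singleton, add_zero, one_mul]
      rw [Wc_sp]
      push_cast at g2
      have g3 := abs_le.1 g1
      have g4 := abs_le.1 g2
      rw [abs_le]
      constructor <;> linarith [g3.1, g3.2, g4.1, g4.2])
  filter_upwards [h1] with N hN
  refine le_trans (le_of_eq ?_) (hN ())
  congr

end

end Pool.Agent.V8Lead.OR
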