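import Pool.Agent.V8Lead.OR.Stm
import Pool.Agent.H382R2.Final0
import Pool.Agent.X112.GS.Rec3

set_option autoImplicit false

/-!
Project OR (lead), second part: statements of the tasks on window counts and on the sequence of the ordinates.
-/

namespace Pool.Agent.V8Lead.OR

open Filter Topology MeasureTheory Complex H370
open Pool.Agent.Y745.SW
open Pool.Agent.Y248.SW (Ker BN)
open SG (NZ ord)
open Pool.Agent.X112.GS (Anti Lln Tight Close inc)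

noncomputable section

/-- ACQM: real linear combinations of the prime sums at fixed shifts are rarely small -/
def S_ACQM : Prop := ∀ (j : ℕ) (C0 D : ℝ) (β : ℝ → ℝ), Ker j C0 β → (∀ ξ, |β ξ| ≤ D) → ∀ τ : ℝ, 0 < τ → τ ≤ 1 / 16 →
  ∀ (k : ℕ) (b c : Fin k → ℝ), Function.Injective c → b ≠ 0 →
  ∀ Y ε : ℝ, 0 < Y → 0 < ε → ∃ N0 : ℝ, 1 ≤ N0 ∧ ∀ N : ℝ, N0 ≤ N → ∀ᶠ T : ℝ in atTop,
    volume.real {t : ℝ | T ≤ t ∧ t ≤ 2 * T ∧ |∑ i, b i * Qs β N (τ * Real.log T) (t + c i)| ≤ Y} ≤ ε * T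

/-- number of zeros with ordinates in `(t, t + 2πs/log T]` (a window of `s` mean spacings at height `T`) -/
def Wc (T s t : ℝ) : ℝ := (NZ (t + 2 * Real.pi * s / Real.log T) : ℝ) - NZ t

/-- WM: real linear combinations of the window counts at fixed shifts are rarely near the expected value -/
def S_WM : Prop := ∀ (k : ℕ) (b c : Fin k → ℝ), Function.Injective c → b ≠ 0 → ∀ Y ε : ℝ, 0 < Y → 0 < ε →
  ∃ s0 : ℝ, 1 ≤ s0 ∧ ∀ s : ℝ, s0 ≤ s → ∀ᶠ T : ℝ in atTop,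
    volume.real {t : ℝ | T ≤ t ∧ t ≤ 2 * T ∧ |∑ i, b i * (Wc T s (t + c i) - s)| ≤ Y} ≤ ε * T

/-- WL: the law of large numbers for the window counts -/
def S_WL : Prop := ∀ κ ε : ℝ, 0 < κ → 0 < ε → ∃ s0 : ℝ, 1 ≤ s0 ∧ ∀ s : ℝ, s0 ≤ s → ∀ᶠ T : ℝ in atTop,
    volume.real {t : ℝ | T ≤ t ∧ t ≤ 2 * T ∧ κ * s ≤ |Wc T s t - s|} ≤ ε * T

/-- WT: tightness of the window counts -/
def S_WT : Prop := ∀ s ε : ℝ, 0 < s → 0 < ε → ∃ Y : ℝ, 0 < Y ∧ ∀ᶠ T : ℝ in atTop,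
    volume.real {t : ℝ | T ≤ t ∧ t ≤ 2 * T ∧ Y ≤ Wc T s t} ≤ ε * T

open Classical in
/-- UI: few ordinates have a neighborhood of `K` mean spacings in a small set -/
def S_UI : Prop := ∀ θ : ℝ, 0 < θ → ∃ K0 : ℝ, 1 ≤ K0 ∧ ∀ K : ℝ, K0 ≤ K → ∃ ε : ℝ, 0 < ε ∧ ∀ᶠ T : ℝ in atTop,
  ∀ E : Set ℝ, E ⊆ Set.Icc T (2 * T) → volume.real E ≤ ε * T →
    (((Finset.Icc 1 (NZ (2 * T))).filter (fun n => Set.Icc (ord n - 2 * Real.pi * K / Real.log T)
      (ord n + 2 * Real.pi * K / Real.log T) ⊆ E)).card : ℝ) ≤ θ * (T * Real.log T)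

open Classical in
/-- DY: from dyadic blocks to initial segments -/
def S_DY : Prop := ∃ C : ℝ, 0 < C ∧ ∀ θ : ℝ, 0 < θ → ∀ (ι : Type) (Bad : ι → ℕ → Prop),
  (∀ᶠ T : ℝ in atTop, ∀ i, (((Finset.Icc 1 (NZ (2 * T))).filter (fun n => T + 1 < ord n ∧ ord n ≤ 2 * T - 1 ∧
    Bad i n)).card : ℝ) ≤ θ * (T * Real.log T)) →
  ∀ᶠ N : ℕ in atTop, ∀ i, (((Finset.Icc 1 N).filter (Bad i)).card : ℝ) ≤ C * θ * N

/-- the smooth counting function -/
def uf (t : ℝ) : ℝ := (t * Real.log t - t) / (2 * Real.pi)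

/-- the unfolded ordinates -/
def yy (n : ℕ) : ℝ := uf (ord n)

/-- the normalized gaps -/
def xx (n : ℕ) : ℝ := (ord (n + 1) - ord n) * Real.log (ord n) / (2 * Real.pi)

def S_SA : Prop := Anti yy
def S_SL : Prop := Lln yy
def S_ST : Prop := Tight (inc yy)
def S_SC : Prop := Close (inc yy) xx

/-- LOC: the sequence and the counting function near an ordinate: for `n` and `r` with `ord n` near `T` the unfolded
difference and the normalized difference agree -/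
def S_LOC : Prop := ∀ A δ : ℝ, 0 < A → 0 < δ → ∀ᶠ T : ℝ in atTop, ∀ n m : ℕ, 1 ≤ n → n ≤ m → T ≤ ord n →
  ord n ≤ 2 * T → (yy m - yy n ≤ A ∨ (ord m - ord n) * Real.log T / (2 * Real.pi) ≤ A) →
    |(yy m - yy n) - (ord m - ord n) * Real.log T / (2 * Real.pi)| ≤ δ

end

end Pool.Agent.V8Lead.OR
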