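import Pool.Agent.V8Lead.OR.CoreA

/-! CORE: the numbers of zeros in windows. -/

set_option autoImplicit false

namespace Pool.Agent.V8Lead.OR

open Filter Topology MeasureTheory Complex H370
open Pool.Agent.Y745.SW
open Pool.Agent.Y248.SW (Ker BN BN_cont BN_even BN_zero)
open scoped ComplexConjugate

noncomputable section

lemma Qs_cont (β : ℝ → ℝ) (N a : ℝ) : Continuous (Qs β N a) := by
  unfold Qs
  fun_prop

/-- the prime sum of the explicit formula -/
def Dz (B : ℝ → ℝ) (a : ℝ) (X : ℕ) (t : ℝ) : ℝ :=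
  2 * (DPp (fun n => ((ArithmeticFunction.vonMangoldt n : ℝ) : ℂ)) B a 0 X t).re

lemma Dz_cont (B : ℝ → ℝ) (a : ℝ) (X : ℕ) : Continuous (Dz B a X) := by
  unfold Dz DPp
  refine continuous_const.mul (Complex.continuous_re.comp ?_)
  refine continuous_finsetSum _ fun n hn => continuous_const.mul ?_
  have hn1 : 0 < n := (Finset.mem_Icc.1 hn).1
  refine Continuous.const_cpow (by fun_prop) (Or.inl ?_)
  have : (n : ℂ) ≠ 0 := by exact_mod_cast hn1.ne'
  exact this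

/-- one point -/
lemma pt_core {B : ℝ → ℝ} (he : ∀ ξ, B (-ξ) = B ξ) {a L U1 U2 t W Q M C : ℝ} {X : ℕ} (ha : 0 < a)
    (h1 : ‖St B a U1 U2 0 t - cexp (I * (0:ℝ) * t) * ((Mu B a L 0 : ℝ) -
        DPp (fun n => ((ArithmeticFunction.vonMangoldt n : ℝ) : ℂ)) B a 0 X t -
        DPm (fun n => ((ArithmeticFunction.vonMangoldt n : ℝ) : ℂ)) B a 0 X t)‖ ≤ C) (hC : C ≤ 1)
    (h4 : |Mu B a L 0 - M| ≤ 1) :
    |W - M + Q| ≤ |W - (St B a U1 U2 0 t).re| + |Dz B a X t - Q| + 2 := by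
  have h2 : cexp (I * ((0:ℝ) : ℂ) * t) = 1 := by simp
  rw [h2, one_mul, sub_sub, DP_sum he ha] at h1
  have h3 := (Complex.abs_re_le_norm _).trans h1
  rw [Complex.sub_re, ← Complex.ofReal_sub, Complex.ofReal_re] at h3
  have h5 : |(St B a U1 U2 0 t).re - (Mu B a L 0 - Dz B a X t)| ≤ 1 := h3.trans hC
  clear h3 h1
  generalize (St B a U1 U2 0 t).re = S at *
  generalize Dz B a X t = Z at *
  generalize Mu B a L 0 = m at *
  have g1 := abs_le.1 h5
  have g2 := abs_le.1 h4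
  have g3 := abs_le.1 (le_refl |W - S|)
  have g4 := abs_le.1 (le_refl |Z - Q|)
  rw [abs_le]
  constructor <;> linarith [g1.1, g1.2, g2.1, g2.2, g3.1, g3.2, g4.1, g4.2]

/-- adding up -/
lemma add_core {w s z q : ℝ → ℝ} {A B E1 E2 m T : ℝ} (hAB : A ≤ B) (hBA : B - A ≤ T)
    (hw : IntervalIntegrable w volume A B) (i1 : IntervalIntegrable (fun t => |w t - s t|) volume A B)
    (hz : Continuous z) (hq : Continuous q)
    (hpt : ∀ t ∈ Set.Icc A B, |w t - m + q t| ≤ |w t - s t| + |z t - q t| + 2)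
    (e1 : ∫ t in A..B, |w t - s t| ≤ E1) (e2 : ∫ t in A..B, |z t - q t| ≤ E2) :
    ∫ t in A..B, |w t - m + q t| ≤ E1 + E2 + 2 * T := by
  have i2 : IntervalIntegrable (fun t => |z t - q t|) volume A B := ((hz.sub hq).abs).intervalIntegrable _ _
  have i0 : IntervalIntegrable (fun t => |w t - m + q t|) volume A B :=
    ((hw.sub intervalIntegrable_const).add (hq.intervalIntegrable _ _)).abs
  have i3 : IntervalIntegrable (fun _ : ℝ => (2:ℝ)) volume A B := intervalIntegrable_const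
  calc ∫ t in A..B, |w t - m + q t|
      ≤ ∫ t in A..B, (|w t - s t| + |z t - q t| + 2) :=
        intervalIntegral.integral_mono_on hAB i0 ((i1.add i2).add i3) hpt
    _ = (∫ t in A..B, |w t - s t|) + (∫ t in A..B, |z t - q t|) + (B - A) * 2 := by
        rw [intervalIntegral.integral_add (i1.add i2) i3, intervalIntegral.integral_add i1 i2,
          intervalIntegral.integral_const, smul_eq_mul]
    _ ≤ _ := by linarith

/-- the window counts almost everywhere -/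
lemma Wn_ae {U1 U2 r A B : ℝ} (hU : 1 ≤ U1) (hAB : A ≤ B) (h1 : U1 ≤ A - r) (h2 : B + r ≤ U2) (g : ℝ → ℝ) :
    ∫ t in A..B, |Wn r t - g t| = ∫ t in A..B, |Wf' U1 U2 r t - g t| := by
  refine intervalIntegral.integral_congr_ae ?_
  have hfin : Set.Finite ((fun s : ℂ => s.im + r) '' (Zf riemannZeta U1 U2 : Set ℂ)) :=
    (Finset.finite_toSet _).image _
  have h3 := compl_mem_ae_iff.2 (hfin.measure_zero volume)
  filter_upwards [h3] with t ht hti
  rw [Set.uIoc_of_le hAB] at hti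
  rw [Wn_eq (U1 := U1) (U2 := U2) hU (by linarith [hti.1]) (by linarith [hti.2])]
  intro s hs h
  exact ht ⟨s, hs, by simp only; linarith⟩

/-- everything at one `T` -/
lemma core_T {β : ℝ → ℝ} {C C' N τ κ Cd CE C1 K T U1 U2 : ℝ} (hC' : 0 < C') (hτ : 0 < τ) (hτ16 : τ ≤ 1 / 16)
    (hτκ : τ ≤ κ / 2) (hN : 1 ≤ N) (hB : Wf 2 C N (BN β N))
    (t1 : ∀ z : ℂ, |z.im| ≤ 1 / 2 → Integrable (ev (BN β N) (τ * Real.log T) (N / (τ * Real.log T)) z) ∧
      ∫ t : ℝ, ev (BN β N) (τ * Real.log T) (N / (τ * Real.log T)) z t ≤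
        C' / (τ * Real.log T) * Real.exp (2 * (τ * Real.log T) * |z.im|))
    (hE : EFD (fun n => ((ArithmeticFunction.vonMangoldt n : ℝ) : ℂ)) CE T U1 U2)
    (t2 : ∀ t u : ℝ, T + Real.log T ≤ t → t ≤ 2 * T - Real.log T → 0 ≤ u → u ≤ (1 - 4 * τ) * Real.log T →
      ‖St (BN β N) (τ * Real.log T) U1 U2 u t - cexp (I * u * t) * ((Mu (BN β N) (τ * Real.log T) (Real.log T) u : ℝ) -
        DPp (fun n => ((ArithmeticFunction.vonMangoldt n : ℝ) : ℂ)) (BN β N) (τ * Real.log T) u (XT (4 * τ) T) t -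
        DPm (fun n => ((ArithmeticFunction.vonMangoldt n : ℝ) : ℂ)) (BN β N) (τ * Real.log T) u (XT (4 * τ) T) t)‖ ≤
        C1 * K / Real.log T)
    (t3 : ∫ t in (T + Real.log T)..(2 * T - Real.log T),
      (Dz (BN β N) (τ * Real.log T) (XT (4 * τ) T) t - Qs β N (τ * Real.log T) t) ^ 2 ≤ 1 * T)
    (t4 : |Mu (BN β N) (τ * Real.log T) (Real.log T) 0 - N / (Real.pi * τ)| ≤ 1)
    (t5 : C1 * K / Real.log T ≤ 1)
    (t7 : ∑ s ∈ Zf riemannZeta T (2 * T), (mult riemannZeta s : ℝ) *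
      Real.exp (κ * (|(zz s).im| * Real.log T)) ≤ Cd * (T * Real.log T))
    (t8 : 10 ≤ T) (t9 : 4 ≤ Real.log T) (t10 : N ≤ τ * Real.log T) (t11 : Real.log T ≤ T / 4) :
    ∫ t in (T + Real.log T)..(2 * T - Real.log T),
      |Wn (N / (τ * Real.log T)) t - N / (Real.pi * τ) + Qs β N (τ * Real.log T) t| ≤ (C' * Cd / τ + 3) * T := by
  have hT0 : 0 < T := by linarith
  generalize hL : Real.log T = L at *
  have hL0 : 0 < L := by linarith
  have ha0 : 0 < τ * L := by positivity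
  have hr : N / (τ * L) ≤ 1 := by
    rw [div_le_one ha0]; exact t10
  have hr0 : 0 < N / (τ * L) := by positivity
  have hU1 : 1 ≤ U1 := by linarith [hE.h1]
  have hAB : T + L ≤ 2 * T - L := by linarith
  have e1 := sum_one (A := T + L) (A' := 2 * T - L) (κ := κ) (L := L) (Cd := Cd) hC' t8 ha0 hB.cont t1
    (by nlinarith) t7 hE.h1 hE.h4 hAB
  have e2 := cs_int hAB (by linarith) ((Dz_cont (BN β N) (τ * L) (XT (4 * τ) T)).sub (Qs_cont β N (τ * L))) t3
  have hpt : ∀ t ∈ Set.Icc (T + L) (2 * T - L), |Wf' U1 U2 (N / (τ * L)) t - N / (Real.pi * τ) + Qs β N (τ * L) t| ≤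
      |Wf' U1 U2 (N / (τ * L)) t - (St (BN β N) (τ * L) U1 U2 0 t).re| +
      |Dz (BN β N) (τ * L) (XT (4 * τ) T) t - Qs β N (τ * L) t| + 2 := by
    intro t ht
    have h1 := t2 t 0 ht.1 ht.2 le_rfl (mul_nonneg (by linarith) hL0.le)
    exact pt_core hB.even ha0 h1 t5 t4
  have hBA : 2 * T - L - (T + L) ≤ T := by linarith
  have e3 := add_core hAB hBA (Wf'_ii U1 U2 _ _ _) (li_one hB.cont (τ * L) (N / (τ * L)) U1 U2 _ _)
    (Dz_cont (BN β N) (τ * L) (XT (4 * τ) T)) (Qs_cont β N (τ * L)) hpt e1 e2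
  have e4 := Wn_ae (U1 := U1) (U2 := U2) (r := N / (τ * L)) hU1 hAB (by linarith [hE.h2]) (by linarith [hE.h3])
    (fun t => N / (Real.pi * τ) - Qs β N (τ * L) t)
  have e5 : ∀ f : ℝ → ℝ, (∫ t in (T + L)..(2 * T - L), |f t - (N / (Real.pi * τ) - Qs β N (τ * L) t)|) =
      ∫ t in (T + L)..(2 * T - L), |f t - N / (Real.pi * τ) + Qs β N (τ * L) t| := by
    intro f
    congr 1
    funext t
    congr 1
    ring
  rw [e5, e5] at e4
  rw [e4]
  refine e3.trans ?_
  have e : C' / (τ * L) * (Cd * (T * L)) = C' * Cd / τ * T := by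
    field_simp
  rw [e]
  linarith

theorem t_CORE (hONE : S_ONE) (hEFZ : S_EFZ) (hDPQ : S_DPQ) : S_CORE := by
  intro C0 D β hK hD
  obtain ⟨κ, Cd, Td, hκ, hCd, hTd, hdens⟩ := Pool.Agent.V8H36.SW.dens_zeta
  obtain ⟨CE, TE, hCE, hTE, hEF⟩ := hEFZ
  have hpi := Real.pi_pos
  have hD0 : 0 ≤ D := (abs_nonneg _).trans (hD 0)
  have hCK : (1:ℝ) ≤ 1 + 2 * D + C0 * Real.pi := by
    have := hK.C0
    have : 0 ≤ C0 * Real.pi := by positivity
    linarith
  obtain ⟨C', hC', hone⟩ := hONE _ hCK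
  refine ⟨min (1 / 16) (κ / 2), by positivity, min_le_left _ _, fun τ hτ hτ0 => ?_⟩
  have hτ16 : τ ≤ 1 / 16 := hτ0.trans (min_le_left _ _)
  have hτκ : τ ≤ κ / 2 := hτ0.trans (min_le_right _ _)
  refine ⟨C' * Cd / τ + 3, by positivity, fun N hN => ?_⟩
  have hB := wf_BN hK D hD N hN
  have haT : Tendsto (fun T : ℝ => τ * Real.log T) atTop atTop := Real.tendsto_log_atTop.const_mul_atTop hτ
  obtain ⟨C1, hC1, hef⟩ := Pool.Agent.Y228.SW.t_EF (4 * τ) τ (by positivity) (by linarith) hτ (by linarith)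
    (fun n => ((ArithmeticFunction.vonMangoldt n : ℝ) : ℂ)) CE
  have hef' := hef (BN β N) ((1 + 2 * D + C0 * Real.pi) * N) hB.cont hB.even hB.bd
  have hdpq := hDPQ 4 C0 D β hK hD τ hτ hτ16 N 1 hN one_pos
  have hMu := (Mu_lim hB.cont hτ).comp Real.tendsto_log_atTop
  rw [hB.zero] at hMu
  have hMu' := Metric.tendsto_nhds.1 hMu 1 one_pos
  have hKs : Tendsto (fun T : ℝ => C1 * ((1 + 2 * D + C0 * Real.pi) * N) / Real.log T) atTop (𝓝 0) :=
    Real.tendsto_log_atTop.const_div_atTop _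
  filter_upwards [haT.eventually (hone N hN), hef', hdpq, hMu', hKs.eventually (gt_mem_nhds one_pos),
    eventually_ge_atTop TE, eventually_ge_atTop Td, eventually_ge_atTop 10,
    Real.tendsto_log_atTop.eventually_ge_atTop 4, haT.eventually_ge_atTop N,
    Real.isLittleO_log_id_atTop.bound (show (0:ℝ) < 1 / 4 by norm_num)] with T t1 t2 t3 t4 t5 t6 t7 t8 t9 t10 t11
  obtain ⟨U1, U2, hE⟩ := hEF T t6
  have hL0 : 0 < Real.log T := by linarith
  have t11' : Real.log T ≤ T / 4 := by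
    rw [Real.norm_eq_abs, Real.norm_eq_abs, id, abs_of_pos hL0, abs_of_pos (by linarith)] at t11
    linarith
  have t4' : |Mu (BN β N) (τ * Real.log T) (Real.log T) 0 - N / (Real.pi * τ)| ≤ 1 := by
    have h := t4
    simp only [Function.comp] at h
    rw [Real.dist_eq] at h
    have e : N / Real.pi / τ = N / (Real.pi * τ) := by field_simp
    rw [e] at h
    exact h.le
  exact core_T hC' hτ hτ16 hτκ hN hB (t1 (BN β N) hB) hE (t2 U1 U2 hE) t3 t4' t5.le (hdens T t7) t8 t9 t10 t11'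

end

end Pool.Agent.V8Lead.OR
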