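import Pool.Agent.Y745.SW.DefsB
import Pool.Agent.Y248.SW.KerA

set_option autoImplicit false

/-!
Project OR (lead): numbers of zeros of zeta in windows of a fixed number of mean spacings, unconditionally: definitions
and statements of the tasks.
-/

namespace Pool.Agent.V8Lead.OR

open Filter Topology MeasureTheory Complex H370
open Pool.Agent.Y745.SW
open Pool.Agent.Y248.SW (Ker BN)

noncomputable section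

/-- the primes up to `X` -/
def Prm (X : ℕ) : Finset ℕ := (Finset.Icc 1 X).filter Nat.Prime

/-- the coefficient of the prime `p` -/
def up (β : ℝ → ℝ) (N a : ℝ) (p : ℕ) : ℝ :=
  4 / Real.sqrt p * β (Real.log p / a) * Real.sin (N * Real.log p / a)

/-- the prime sum of the window of half length `N / a` -/
def Qs (β : ℝ → ℝ) (N a t : ℝ) : ℝ :=
  ∑ p ∈ Prm ⌊Real.exp a⌋₊, up β N a p * Real.cos (t * Real.log p)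

/-- number of zeros with ordinates in `(t - r, t + r]`, with multiplicity -/
def Wn (r t : ℝ) : ℝ := (NN riemannZeta (t - r) (t + r) : ℝ)

/-- ONE: the window function against the indicator function, one zero -/
def S_ONE : Prop := ∀ C : ℝ, 1 ≤ C → ∃ C' : ℝ, 0 < C' ∧ ∀ N : ℝ, 1 ≤ N → ∀ᶠ a : ℝ in atTop,
  ∀ B : ℝ → ℝ, Wf 2 C N B → ∀ z : ℂ, |z.im| ≤ 1 / 2 →
    Integrable (fun t : ℝ => ‖vt B a t z - (if |z.re - t| ≤ N / a then 1 else 0)‖) ∧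
    ∫ t : ℝ, ‖vt B a t z - (if |z.re - t| ≤ N / a then 1 else 0)‖ ≤ C' / a * Real.exp (2 * a * |z.im|)

/-- EFZ: the explicit formula for zeta, with the coefficients of `-ζ'/ζ` -/
def S_EFZ : Prop := ∃ C T0 : ℝ, 0 < C ∧ 10 ≤ T0 ∧ ∀ T : ℝ, T0 ≤ T →
  ∃ U1 U2 : ℝ, EFD (fun n => ((ArithmeticFunction.vonMangoldt n : ℝ) : ℂ)) C T U1 U2

/-- DPQ: the prime sum of the explicit formula is `Qs` up to a negligible error -/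
def S_DPQ : Prop := ∀ (j : ℕ) (C0 D : ℝ) (β : ℝ → ℝ), Ker j C0 β → (∀ ξ, |β ξ| ≤ D) →
  ∀ τ : ℝ, 0 < τ → τ ≤ 1 / 16 → ∀ N η : ℝ, 1 ≤ N → 0 < η → ∀ᶠ T : ℝ in atTop,
    ∫ t in (T + Real.log T)..(2 * T - Real.log T),
      (2 * (DPp (fun n => ((ArithmeticFunction.vonMangoldt n : ℝ) : ℂ)) (BN β N) (τ * Real.log T) 0
        (XT (4 * τ) T) t).re - Qs β N (τ * Real.log T) t) ^ 2 ≤ η * T

/-- CORE: the numbers of zeros in windows -/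
def S_CORE : Prop := ∀ (C0 D : ℝ) (β : ℝ → ℝ), Ker 4 C0 β → (∀ ξ, |β ξ| ≤ D) → ∃ τ0 : ℝ, 0 < τ0 ∧ τ0 ≤ 1 / 16 ∧
  ∀ τ : ℝ, 0 < τ → τ ≤ τ0 → ∃ C1 : ℝ, 0 < C1 ∧ ∀ N : ℝ, 1 ≤ N → ∀ᶠ T : ℝ in atTop,
    ∫ t in (T + Real.log T)..(2 * T - Real.log T),
      |Wn (N / (τ * Real.log T)) t - N / (Real.pi * τ) + Qs β N (τ * Real.log T) t| ≤ C1 * T

/-- the limit of the variance (times two) -/
def VN (β : ℝ → ℝ) (N : ℝ) : ℝ := 16 * ∫ x in (0:ℝ)..1, β x ^ 2 * (Real.sin (N * x) ^ 2 / x)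

/-- VAR: the sum of the squares of the coefficients -/
def S_VAR : Prop := ∀ (β : ℝ → ℝ), Continuous β → (∀ ξ, 1 ≤ |ξ| → β ξ = 0) → ∀ N : ℝ, 1 ≤ N →
  Tendsto (fun a : ℝ => ∑ p ∈ Prm ⌊Real.exp a⌋₊, up β N a p ^ 2) atTop (𝓝 (VN β N))

/-- TWV: the twisted sum of the squares of the coefficients -/
def S_TWV : Prop := ∀ (β : ℝ → ℝ), Continuous β → (∀ ξ, 1 ≤ |ξ| → β ξ = 0) → ∀ N c : ℝ, 1 ≤ N → c ≠ 0 →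
  Tendsto (fun a : ℝ => ∑ p ∈ Prm ⌊Real.exp a⌋₊, up β N a p ^ 2 * Real.cos (c * Real.log p)) atTop (𝓝 0)

/-- LOWV: the size of the variance -/
def S_LOWV : Prop := ∀ (β : ℝ → ℝ), Continuous β → 0 < β 0 → ∃ c C : ℝ, 0 < c ∧ 0 < C ∧ ∀ N : ℝ, 1 ≤ N →
  c * Real.log N - C ≤ VN β N ∧ VN β N ≤ C * (1 + Real.log N)

/-- TAILV: the primes above `exp (δ a)` contribute a bounded amount, uniformly in `N` -/
def S_TAILV : Prop := ∀ (β : ℝ → ℝ) (D : ℝ), (∀ ξ, |β ξ| ≤ D) → ∃ C : ℝ, 0 < C ∧ ∀ δ : ℝ, 0 < δ → δ ≤ 1 / 2 →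
  ∀ᶠ a : ℝ in atTop, ∀ N : ℝ,
    ∑ p ∈ (Prm ⌊Real.exp a⌋₊).filter (fun p : ℕ => δ * a < Real.log p), up β N a p ^ 2 ≤ C * Real.log (1 / δ)

/-- M4: the fourth moment of a prime polynomial -/
def S_M4 : Prop := ∃ C T0 : ℝ, 0 < C ∧ ∀ T : ℝ, T0 ≤ T → ∀ X : ℕ, (X : ℝ) ^ 8 ≤ T → ∀ w : ℕ → ℂ, ∀ A B : ℝ,
  A ≤ B → B - A ≤ T →
    ∫ t in A..B, ‖∑ p ∈ Prm X, w p * (p : ℂ) ^ (-(t : ℂ) * I)‖ ^ 4 ≤ C * T * (∑ p ∈ Prm X, ‖w p‖ ^ 2) ^ 2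

/-- LARGE: the difference of the windows at `t` and `t - c` is large in mean -/
def S_LARGE : Prop := ∀ (j : ℕ) (C0 D : ℝ) (β : ℝ → ℝ), Ker j C0 β → (∀ ξ, |β ξ| ≤ D) → ∀ τ : ℝ, 0 < τ → τ ≤ 1 / 16 →
  ∃ κ N0 : ℝ, 0 < κ ∧ 1 ≤ N0 ∧ ∀ N : ℝ, N0 ≤ N → ∀ c : ℝ, c ≠ 0 → ∀ᶠ T : ℝ in atTop,
    κ * Real.sqrt (Real.log N) * T ≤ ∫ t in (T + 2 * Real.log T)..(2 * T - 2 * Real.log T),
      |Qs β N (τ * Real.log T) t - Qs β N (τ * Real.log T) (t - c)|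

/-- ACQ: the prime sum is rarely small -/
def S_ACQ : Prop := ∀ (j : ℕ) (C0 D : ℝ) (β : ℝ → ℝ), Ker j C0 β → (∀ ξ, |β ξ| ≤ D) → ∀ τ : ℝ, 0 < τ → τ ≤ 1 / 16 →
  ∀ Y ε : ℝ, 0 < Y → 0 < ε → ∃ N0 : ℝ, 1 ≤ N0 ∧ ∀ N : ℝ, N0 ≤ N → ∀ᶠ T : ℝ in atTop,
    volume.real {t : ℝ | T ≤ t ∧ t ≤ 2 * T ∧ |Qs β N (τ * Real.log T) t| ≤ Y} ≤ ε * T

/-- L2Q: the mean square of the prime sum -/
def S_L2Q : Prop := ∀ (j : ℕ) (C0 D : ℝ) (β : ℝ → ℝ), Ker j C0 β → (∀ ξ, |β ξ| ≤ D) → ∀ τ : ℝ, 0 < τ → τ ≤ 1 / 16 →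
  ∃ C : ℝ, 0 < C ∧ ∀ N : ℝ, 1 ≤ N → ∀ᶠ T : ℝ in atTop,
    ∫ t in T..(2 * T), Qs β N (τ * Real.log T) t ^ 2 ≤ C * (1 + Real.log N) * T

end

end Pool.Agent.V8Lead.OR
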