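import Pool.Agent.V8Lead.OR.One
import Pool.Agent.V8Lead.OR.EFZ
import Pool.Agent.V8H36.SW.Dens
import Pool.Agent.Y228.SW.EF
import Pool.Agent.Y248.SW.KER

/-! CORE: the numbers of zeros in windows. -/

set_option autoImplicit false

namespace Pool.Agent.V8Lead.OR

open Filter Topology MeasureTheory Complex H370
open Pool.Agent.Y745.SW
open Pool.Agent.Y248.SW (Ker BN BN_cont BN_even BN_zero)
open scoped ComplexConjugate

noncomputable section

/-- the window functions with explicit frequency data -/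
theorem wf_BN {j : ℕ} {C0 : ℝ} {β : ℝ → ℝ} (hK : Ker (j + 2) C0 β) (D : ℝ) (hD : ∀ ξ, |β ξ| ≤ D) (N : ℝ)
    (hN : 1 ≤ N) : Wf j (1 + 2 * D + C0 * Real.pi) N (BN β N) := by
  have hD0 : 0 ≤ D := (abs_nonneg _).trans (hD 0)
  have hpi := Real.pi_pos
  have hC := hK.C0
  have hCp : 0 ≤ C0 * Real.pi := by positivity
  have hN0 : 0 ≤ N := by linarith
  refine
    { cont := BN_cont hK.cont N
      even := BN_even hK.even N
      bd := ?_
      zero := BN_zero hK.zero N
      sq := hK.sqN hN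
      real := hK.realN hN0
      inner := ?_
      outer := ?_ }
  · intro ξ
    have h1 : ‖∫ y in (-N)..N, Real.cos (ξ * y)‖ ≤ 1 * |N - -N| := by
      apply intervalIntegral.norm_integral_le_of_norm_le_const
      intro y _
      exact Real.abs_cos_le_one _
    have h1' : |N - -N| = N - -N := abs_of_nonneg (by linarith)
    rw [Real.norm_eq_abs, one_mul, h1'] at h1
    rw [BN, abs_mul]
    calc |β ξ| * |∫ y in (-N)..N, Real.cos (ξ * y)| ≤ D * (N - -N) :=
          mul_le_mul (hD ξ) h1 (abs_nonneg _) hD0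
      _ ≤ _ := by nlinarith
  · intro z hz
    refine (hK.inner hN0 z hz).trans ?_
    have h1 : 1 ≤ 1 + (N - |z.re|) := by linarith
    have h2 : (1 + (N - |z.re|)) ^ j ≤ (1 + (N - |z.re|)) ^ (j + 2) :=
      pow_le_pow_right₀ h1 (by omega)
    have h3 : 0 < (1 + (N - |z.re|)) ^ j := by positivity
    have h4 := Real.exp_pos |z.im|
    apply div_le_div₀ (by positivity) _ h3 h2
    apply mul_le_mul_of_nonneg_right _ h4.le
    linarith
  · intro z hz
    refine (hK.outer hN0 z hz).trans ?_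
    have h1 : 1 ≤ 1 + (|z.re| - N) := by linarith
    have h2 : (1 + (|z.re| - N)) ^ j ≤ (1 + (|z.re| - N)) ^ (j + 2) :=
      pow_le_pow_right₀ h1 (by omega)
    have h3 : 0 < (1 + (|z.re| - N)) ^ j := by positivity
    have h4 := Real.exp_pos |z.im|
    apply div_le_div₀ (by positivity) _ h3 h2
    apply mul_le_mul_of_nonneg_right _ h4.le
    linarith

/-- the coefficients of the two halves of the prime sum agree -/
lemma Gm_eq_Gp {B : ℝ → ℝ} (he : ∀ ξ, B (-ξ) = B ξ) {a : ℝ} (ha : 0 < a) (y : ℝ) : Gm B a 0 y = Gp B a 0 y := by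
  unfold Gm Gp
  congr 1
  have h1 := intervalIntegral.integral_comp_neg (a := -1) (b := 1)
    (fun ξ : ℝ => if 0 ≤ 0 + ξ * a then (0:ℝ) else B ξ * Real.exp (-(0 + ξ * a + y) ^ 2 / 2))
  simp only [neg_neg] at h1
  rw [← h1]
  refine intervalIntegral.integral_congr_ae ?_
  have h2 : ∀ᵐ x : ℝ, x ≠ 0 := by
    have : (volume : Measure ℝ) {0} = 0 := by simp
    exact compl_mem_ae_iff.2 this
  filter_upwards [h2] with x hx _
  rcases lt_or_gt_of_ne hx with h | h
  · have e1 : 0 ≤ 0 + -x * a := by nlinarith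
    have e2 : ¬ 0 ≤ 0 + x * a := by
      rw [not_le]
      nlinarith
    rw [if_pos e1, if_neg e2]
  · have e1 : ¬ 0 ≤ 0 + -x * a := by
      rw [not_le]
      nlinarith
    have e2 : 0 ≤ 0 + x * a := by nlinarith
    rw [if_neg e1, if_pos e2, he]
    congr 2
    ring

lemma DP_sum {B : ℝ → ℝ} (he : ∀ ξ, B (-ξ) = B ξ) {a : ℝ} (ha : 0 < a) (c : ℕ → ℂ) (X : ℕ) (t : ℝ) :
    DPp c B a 0 X t + DPm c B a 0 X t = ((2 * (DPp c B a 0 X t).re : ℝ) : ℂ) := by
  have h1 : DPm c B a 0 X t = conj (DPp c B a 0 X t) := by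
    unfold DPm DPp dp
    rw [map_sum]
    refine Finset.sum_congr rfl fun n hn => ?_
    have hn0 : 0 < n := (Finset.mem_Icc.1 hn).1
    rw [Gm_eq_Gp he ha, map_mul, map_mul, Complex.conj_ofReal]
    congr 1
    rw [Pool.Agent.Y228.SW.npow_neg hn0, Pool.Agent.Y228.SW.npow_pos hn0, ← Complex.exp_conj]
    congr 1
    simp only [map_mul, map_neg, conj_I, Complex.conj_ofReal]
    ring
  rw [h1, Complex.add_conj]

/-- the window counts over a finite set of zeros -/
def Wf' (U1 U2 r t : ℝ) : ℝ :=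
  ∑ s ∈ Zf riemannZeta U1 U2, (mult riemannZeta s : ℝ) * (if |(zz s).re - t| ≤ r then 1 else 0)

lemma Wn_eq {U1 U2 r t : ℝ} (hU : 1 ≤ U1) (h1 : U1 ≤ t - r) (h2 : t + r ≤ U2)
    (h3 : ∀ s ∈ Zf riemannZeta U1 U2, s.im ≠ t - r) : Wn r t = Wf' U1 U2 r t := by
  classical
  unfold Wn Wf'
  rw [NN_eq good_zeta (hU.trans h1)]
  push_cast
  have e : Zf riemannZeta (t - r) (t + r) = (Zf riemannZeta U1 U2).filter (fun s => |(zz s).re - t| ≤ r) := by
    ext s
    rw [Finset.mem_filter, mem_Zf good_zeta (hU.trans h1), mem_Zf good_zeta hU, zz_re]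
    constructor
    · rintro ⟨a1, a2, a3, a4, a5⟩
      refine ⟨⟨a1, a2, h1.trans_lt a3, a4.trans h2, a5⟩, ?_⟩
      rw [abs_le]
      constructor <;> linarith
    · rintro ⟨⟨a1, a2, a3, a4, a5⟩, a6⟩
      rw [abs_le] at a6
      have a7 := h3 s ((mem_Zf good_zeta hU).2 ⟨a1, a2, a3, a4, a5⟩)
      refine ⟨a1, a2, lt_of_le_of_ne (by linarith) (Ne.symm a7), by linarith, a5⟩
  rw [e, Finset.sum_filter]
  refine Finset.sum_congr rfl fun s _ => ?_
  split_ifs <;> simp

lemma ii_sum {ι : Type*} (S : Finset ι) (f : ι → ℝ → ℝ) {A B : ℝ}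
    (h : ∀ i ∈ S, IntervalIntegrable (f i) volume A B) : IntervalIntegrable (fun t => ∑ i ∈ S, f i t) volume A B := by
  have h1 := IntervalIntegrable.sum S h
  have e : (∑ i ∈ S, f i) = fun t => ∑ i ∈ S, f i t := by
    funext t; simp
  rwa [e] at h1

lemma ind_meas (r x : ℝ) : Measurable (fun t : ℝ => if |x - t| ≤ r then (1:ℝ) else 0) := by
  apply Measurable.ite
  · exact measurableSet_le (by fun_prop) measurable_const
  · exact measurable_const
  · exact measurable_const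

lemma ind_ii (r x A B : ℝ) : IntervalIntegrable (fun t : ℝ => if |x - t| ≤ r then (1:ℝ) else 0) volume A B := by
  refine (intervalIntegrable_const (c := (1:ℝ))).mono_fun' (ind_meas r x).aestronglyMeasurable ?_
  refine Eventually.of_forall fun t => ?_
  simp only
  split_ifs <;> simp

lemma Wf'_ii (U1 U2 r A B : ℝ) : IntervalIntegrable (Wf' U1 U2 r) volume A B := by
  unfold Wf'
  exact ii_sum _ _ fun s _ => (ind_ii r _ A B).const_mul _

lemma St_zero (B : ℝ → ℝ) (a U1 U2 t : ℝ) :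
    St B a U1 U2 0 t = ∑ s ∈ Zf riemannZeta U1 U2, (mult riemannZeta s : ℂ) * vt B a t (zz s) := by
  unfold St
  refine Finset.sum_congr rfl fun s _ => ?_
  simp

/-- the cost of a zero -/
def ev (B : ℝ → ℝ) (a r : ℝ) (z : ℂ) (t : ℝ) : ℝ := ‖vt B a t z - (if |z.re - t| ≤ r then 1 else 0)‖

lemma ev_nonneg (B : ℝ → ℝ) (a r : ℝ) (z : ℂ) (t : ℝ) : 0 ≤ ev B a r z t := norm_nonneg _

lemma zz_half {U1 U2 : ℝ} (hU : 1 ≤ U1) {s : ℂ} (hs : s ∈ Zf riemannZeta U1 U2) : |(zz s).im| ≤ 1 / 2 := by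
  rw [mem_Zf good_zeta hU] at hs
  rw [zz_im, abs_neg, abs_le]
  constructor <;> linarith [hs.1, hs.2.1]

lemma Zf_sub {T U1 U2 : ℝ} (hT : 1 ≤ T) (hU1 : T ≤ U1) (hU2 : U2 ≤ 2 * T) :
    Zf riemannZeta U1 U2 ⊆ Zf riemannZeta T (2 * T) := by
  intro s hs
  rw [mem_Zf good_zeta (hT.trans hU1)] at hs
  rw [mem_Zf good_zeta hT]
  exact ⟨hs.1, hs.2.1, hU1.trans_lt hs.2.2.1, hs.2.2.2.1.trans hU2, hs.2.2.2.2⟩

lemma pt_one (B : ℝ → ℝ) (a r U1 U2 t : ℝ) :
    |Wf' U1 U2 r t - (St B a U1 U2 0 t).re| ≤ ∑ s ∈ Zf riemannZeta U1 U2,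
      (mult riemannZeta s : ℝ) * ev B a r (zz s) t := by
  have e : ((Wf' U1 U2 r t - (St B a U1 U2 0 t).re : ℝ)) = -(∑ s ∈ Zf riemannZeta U1 U2,
      (mult riemannZeta s : ℂ) * (vt B a t (zz s) - (if |(zz s).re - t| ≤ r then 1 else 0))).re := by
    unfold Wf'
    rw [St_zero, Complex.re_sum, Complex.re_sum, ← Finset.sum_sub_distrib, ← Finset.sum_neg_distrib]
    refine Finset.sum_congr rfl fun s _ => ?_
    split_ifs
    · simp; ring
    · simp
  rw [e, abs_neg]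
  refine (Complex.abs_re_le_norm _).trans ((norm_sum_le _ _).trans (Finset.sum_le_sum fun s _ => ?_))
  rw [norm_mul, Complex.norm_natCast]
  exact le_rfl

/-- a sum of integrals, abstractly -/
lemma abs_sum_int {ι : Type*} (S : Finset ι) (m : ι → ℝ) (f : ι → ℝ → ℝ) (w : ι → ℝ) {A A' : ℝ} (hA : A ≤ A')
    (hm : ∀ i ∈ S, 0 ≤ m i) (hf : ∀ i ∈ S, Integrable (f i)) (hf0 : ∀ i ∈ S, ∀ t, 0 ≤ f i t)
    (h : ∀ i ∈ S, ∫ t, f i t ≤ w i) (F : ℝ → ℝ) (hF : IntervalIntegrable F volume A A')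
    (hFf : ∀ t, F t ≤ ∑ i ∈ S, m i * f i t) : ∫ t in A..A', F t ≤ ∑ i ∈ S, m i * w i := by
  have hii : ∀ i ∈ S, IntervalIntegrable (fun t : ℝ => m i * f i t) volume A A' :=
    fun i hi => ((hf i hi).intervalIntegrable).const_mul _
  calc ∫ t in A..A', F t ≤ ∫ t in A..A', ∑ i ∈ S, m i * f i t :=
        intervalIntegral.integral_mono_on hA hF (ii_sum S (fun i t => m i * f i t) hii) fun t _ => hFf t
    _ = ∑ i ∈ S, m i * ∫ t in A..A', f i t := by
        rw [intervalIntegral.integral_finsetSum hii]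
        refine Finset.sum_congr rfl fun s _ => ?_
        rw [intervalIntegral.integral_const_mul]
    _ ≤ ∑ i ∈ S, m i * w i := by
        refine Finset.sum_le_sum fun i hi => mul_le_mul_of_nonneg_left ?_ (hm i hi)
        rw [intervalIntegral.integral_of_le hA]
        exact (setIntegral_le_integral (hf i hi) (Eventually.of_forall (hf0 i hi))).trans (h i hi)

/-- weights, abstractly -/
lemma abs_sum_w {ι : Type*} {S S' : Finset ι} (hS : S ⊆ S') (m : ι → ℝ) (x : ι → ℝ) (K a κ L D : ℝ)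
    (hm : ∀ i, 0 ≤ m i) (hK : 0 ≤ K) (hκ : 2 * a ≤ κ * L)
    (hd : ∑ i ∈ S', m i * Real.exp (κ * (|x i| * L)) ≤ D) :
    ∑ i ∈ S, m i * (K * Real.exp (2 * a * |x i|)) ≤ K * D := by
  have h1 : ∑ i ∈ S, m i * (K * Real.exp (2 * a * |x i|)) ≤ K * ∑ i ∈ S, m i * Real.exp (κ * (|x i| * L)) := by
    rw [Finset.mul_sum]
    refine Finset.sum_le_sum fun i _ => ?_
    have h2 : Real.exp (2 * a * |x i|) ≤ Real.exp (κ * (|x i| * L)) := by
      apply Real.exp_le_exp.2
      have := mul_le_mul_of_nonneg_right hκ (abs_nonneg (x i))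
      linarith
    have h3 := mul_le_mul_of_nonneg_left h2 (mul_nonneg hK (hm i))
    linarith
  refine h1.trans (mul_le_mul_of_nonneg_left (le_trans ?_ hd) hK)
  exact Finset.sum_le_sum_of_subset_of_nonneg hS fun i _ _ => mul_nonneg (hm i) (Real.exp_pos _).le

lemma St0_cont {B : ℝ → ℝ} (hB : Continuous B) (a U1 U2 : ℝ) :
    Continuous (fun t : ℝ => (St B a U1 U2 0 t).re) := by
  have h1 := St_cont hB a U1 U2
  have h2 : Continuous (fun t : ℝ => ((0:ℝ), t)) := by fun_prop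
  have h3 := h1.comp h2
  have h4 := Complex.continuous_re.comp h3
  exact h4

lemma li_one {B : ℝ → ℝ} (hB : Continuous B) (a r U1 U2 A A' : ℝ) :
    IntervalIntegrable (fun t => |Wf' U1 U2 r t - (St B a U1 U2 0 t).re|) volume A A' := by
  have h1 : IntervalIntegrable (fun t => (St B a U1 U2 0 t).re) volume A A' :=
    (St0_cont hB a U1 U2).intervalIntegrable A A'
  exact ((Wf'_ii U1 U2 r A A').sub h1).abs

/-- the local sums against the window counts -/
lemma sum_one {C' r a Cd κ T L U1 U2 A A' : ℝ} {B : ℝ → ℝ} (hC' : 0 < C') (hT : 10 ≤ T) (ha : 0 < a)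
    (hB : Continuous B)
    (h1 : ∀ z : ℂ, |z.im| ≤ 1 / 2 → Integrable (ev B a r z) ∧
      ∫ t : ℝ, ev B a r z t ≤ C' / a * Real.exp (2 * a * |z.im|))
    (hκ : 2 * a ≤ κ * L)
    (hd : ∑ s ∈ Zf riemannZeta T (2 * T), (mult riemannZeta s : ℝ) * Real.exp (κ * (|(zz s).im| * L)) ≤ Cd * (T * L))
    (hU1 : T ≤ U1) (hU2 : U2 ≤ 2 * T) (hA : A ≤ A') :
    ∫ t in A..A', |Wf' U1 U2 r t - (St B a U1 U2 0 t).re| ≤ C' / a * (Cd * (T * L)) := by
  have hT1 : 1 ≤ T := by linarith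
  have k1 := abs_sum_int (Zf riemannZeta U1 U2) (fun s => (mult riemannZeta s : ℝ))
    (fun s => ev B a r (zz s)) (fun s => C' / a * Real.exp (2 * a * |(zz s).im|)) hA
    (fun s _ => Nat.cast_nonneg _) (fun s hs => (h1 _ (zz_half (hT1.trans hU1) hs)).1)
    (fun s _ t => ev_nonneg B a r _ t) (fun s hs => (h1 _ (zz_half (hT1.trans hU1) hs)).2)
    (fun t => |Wf' U1 U2 r t - (St B a U1 U2 0 t).re|) (li_one hB a r U1 U2 A A') (pt_one B a r U1 U2)
  exact k1.trans (abs_sum_w (Zf_sub hT1 hU1 hU2) (fun s => (mult riemannZeta s : ℝ)) (fun s => (zz s).im)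
    (C' / a) a κ L _ (fun s => Nat.cast_nonneg _) (by positivity) hκ hd)

/-- Cauchy-Schwarz -/
lemma cs_int {f : ℝ → ℝ} {A B η T : ℝ} (hAB : A ≤ B) (hBA : B - A ≤ T)
    (hf : Continuous f) (h : ∫ t in A..B, f t ^ 2 ≤ η * T) : ∫ t in A..B, |f t| ≤ (1 + η) / 2 * T := by
  have h1 : ∀ t, |f t| ≤ 1 / 2 + 1 / 2 * f t ^ 2 := by
    intro t
    have := sq_nonneg (|f t| - 1)
    rw [sub_sq, sq_abs] at this
    linarith
  have hf2 : Continuous (fun t => f t ^ 2) := hf.pow 2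
  calc ∫ t in A..B, |f t| ≤ ∫ t in A..B, (1 / 2 + 1 / 2 * f t ^ 2) :=
        intervalIntegral.integral_mono_on hAB (hf.abs.intervalIntegrable _ _)
          ((continuous_const.add (continuous_const.mul hf2)).intervalIntegrable _ _) fun t _ => h1 t
    _ = (B - A) * (1 / 2) + 1 / 2 * ∫ t in A..B, f t ^ 2 := by
        have i1 : IntervalIntegrable (fun _ : ℝ => (1 / 2 : ℝ)) volume A B := intervalIntegrable_const
        have i2 : IntervalIntegrable (fun t : ℝ => 1 / 2 * f t ^ 2) volume A B :=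
          (continuous_const.mul hf2).intervalIntegrable _ _
        rw [intervalIntegral.integral_add i1 i2,
          intervalIntegral.integral_const_mul, intervalIntegral.integral_const, smul_eq_mul]
    _ ≤ _ := by nlinarith


end

end Pool.Agent.V8Lead.OR
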