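import Pool.Agent.V8Lead.OR.Core
import Pool.Agent.V8H58.OR.DPQ
import Pool.Agent.V8H54.OR.Var
import Pool.Agent.V8H54.OR.Low
import Pool.Agent.V8H86.OR.Wm
import Pool.Agent.V8H86.OR.Ab

/-! Project OR (lead): assembly. -/

set_option autoImplicit false

namespace Pool.Agent.V8Lead.OR

theorem core : S_CORE := t_CORE t_ONE t_EFZ Pool.Agent.V8H58.OR.t_DPQ

theorem l2q : S_L2Q := Pool.Agent.V8H58.OR.t_L2Q Pool.Agent.V8H54.OR.t_VAR Pool.Agent.V8H54.OR.t_LOWV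

theorem acqm : S_ACQM := Pool.Agent.V8H86.OR.t_ACQM Pool.Agent.V8H54.OR.t_VAR Pool.Agent.V8H54.OR.t_TWV
  Pool.Agent.V8H54.OR.t_LOWV Pool.Agent.V8H54.OR.t_TAILV

theorem wm : S_WM := Pool.Agent.V8H86.OR.t_WM core acqm

theorem ab : S_AB := Pool.Agent.V8H86.OR.t_AB wm

end Pool.Agent.V8Lead.OR
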