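import Pool.Agent.V8Lead.OR.HolA

/-! Project OR (lead): no holonomic relations between consecutive ordinates. -/

set_option autoImplicit false

namespace Pool.Agent.V8Lead.OR

open Filter Topology MeasureTheory Polynomial
open SG (NZ ord)

noncomputable section

lemma log_ord (B : ℕ) : ∃ n0 : ℕ, 1 ≤ n0 ∧ ∀ n : ℕ, n0 ≤ n → Real.log (ord (n + B)) ≤ 2 * Real.log (ord n) := by
  obtain ⟨T0, hlow⟩ := W200.HW.NZ_lower (1 / 2) (by norm_num)
  obtain ⟨T1, hup⟩ := SG.NZ_pow_bound (1 / 2) (by norm_num)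
  have hpi := Real.pi_pos
  have hpi4 := Real.pi_lt_four
  obtain ⟨n0, hn0, ho⟩ := ord_ge_ev (max (max T0 T1) (max (Real.exp 1) (max 256 (B : ℝ))))
  refine ⟨n0, hn0, fun n hn => ?_⟩
  have h1 := ho n hn
  obtain ⟨T, hT⟩ : ∃ T : ℝ, T = ord n := ⟨_, rfl⟩
  rw [← hT] at h1
  have a1 : T0 ≤ T := (le_max_left _ _).trans ((le_max_left _ _).trans h1)
  have a2 : T1 ≤ T := (le_max_right _ _).trans ((le_max_left _ _).trans h1)
  have a3 : Real.exp 1 ≤ T := (le_max_left _ _).trans ((le_max_right _ _).trans h1)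
  have a4 : 256 ≤ T := (le_max_left _ _).trans ((le_max_right _ _).trans ((le_max_right _ _).trans h1))
  have a5 : (B : ℝ) ≤ T := (le_max_right _ _).trans ((le_max_right _ _).trans ((le_max_right _ _).trans h1))
  have hT0 : 0 < T := by linarith
  have hlog1 : 1 ≤ Real.log T := by
    rw [Real.le_log_iff_exp_le hT0]; exact a3
  -- bounds for the counting function
  have b1 : (n : ℝ) ≤ NZ (2 * T) := by
    have h2 : n ≤ NZ T := by
      rw [hT]; exact SG.le_NZ_ord (by omega)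
    have h3 : NZ T ≤ NZ (2 * T) := SG.NZ_mono (by linarith)
    exact_mod_cast h2.trans h3
  have b2 : (n : ℝ) ≤ T ^ (1 + 1 / 2 : ℝ) := b1.trans (hup T a2)
  have b3 : T ^ (1 + 1 / 2 : ℝ) = T * Real.sqrt T := by
    rw [Real.rpow_add hT0, Real.rpow_one, Real.sqrt_eq_rpow]
  have b4 : (1 - 1 / 2) * (T ^ 2 / (2 * Real.pi) * Real.log (T ^ 2)) ≤ (NZ (T ^ 2) : ℝ) :=
    hlow (T ^ 2) (a1.trans (by nlinarith))
  have b5 : Real.log (T ^ 2) = 2 * Real.log T := by
    rw [Real.log_pow]; push_cast; ring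
  rw [b5] at b4
  have b6 : T ^ 2 / 8 ≤ (NZ (T ^ 2) : ℝ) := by
    refine le_trans ?_ b4
    have e : (1 - 1 / 2) * (T ^ 2 / (2 * Real.pi) * (2 * Real.log T)) = T ^ 2 * Real.log T / (2 * Real.pi) := by
      ring
    rw [e, div_le_div_iff₀ (by norm_num) (by positivity)]
    have : T ^ 2 * 1 ≤ T ^ 2 * Real.log T := mul_le_mul_of_nonneg_left hlog1 (by positivity)
    nlinarith
  have b7 : Real.sqrt T * Real.sqrt T = T := Real.mul_self_sqrt hT0.le
  have b8 : 16 ≤ Real.sqrt T := by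
    rw [show (16:ℝ) = Real.sqrt 256 by rw [show (256:ℝ) = 16 ^ 2 by norm_num]; exact (Real.sqrt_sq (by norm_num)).symm]
    exact Real.sqrt_le_sqrt a4
  have b9 : (n : ℝ) + B ≤ NZ (T ^ 2) := by
    have : T * Real.sqrt T ≤ T ^ 2 / 16 := by
      have h2 : Real.sqrt T ≤ T / 16 := by nlinarith
      calc T * Real.sqrt T ≤ T * (T / 16) := mul_le_mul_of_nonneg_left h2 hT0.le
        _ = T ^ 2 / 16 := by ring
    rw [b3] at b2
    nlinarith
  have b10 : ord (n + B) ≤ T ^ 2 := by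
    rw [SG.ord_le_iff (by omega)]
    exact_mod_cast b9
  calc Real.log (ord (n + B)) ≤ Real.log (T ^ 2) := Real.log_le_log (SG.ord_pos (by omega)) b10
    _ = 2 * Real.log (ord n) := by rw [b5, hT]

/-- counting the bad positions in blocks -/
lemma block_count {Q : ℕ → Prop} {dQ : DecidablePred Q} (A : ℕ) (hA : 0 < A) (N : ℕ) (δ : ℝ)
    (h : ((@Finset.filter ℕ Q dQ (Finset.Icc 1 (N + A))).card : ℝ) ≤ δ * ((N + A : ℕ) : ℝ)) :
    (((Finset.Icc 1 N).filter (fun n => (A : ℝ) / 4 ≤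
      (((Finset.range A).filter (fun i => Q (n + i))).card : ℝ))).card : ℝ) ≤ 4 * δ * ((N + A : ℕ) : ℝ) := by
  have hA0 : (0:ℝ) < A := by exact_mod_cast hA
  obtain ⟨S, hS⟩ : ∃ S : Finset ℕ, S = (Finset.Icc 1 N).filter (fun n => (A : ℝ) / 4 ≤
      (((Finset.range A).filter (fun i => Q (n + i))).card : ℝ)) := ⟨_, rfl⟩
  rw [← hS]
  have h1 : (S.card : ℝ) * (A / 4) ≤ ∑ n ∈ Finset.Icc 1 N, (((Finset.range A).filter (fun i => Q (n + i))).card : ℝ) := by
    calc (S.card : ℝ) * (A / 4) = ∑ n ∈ S, (A : ℝ) / 4 := by rw [Finset.sum_const, nsmul_eq_mul]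
      _ ≤ ∑ n ∈ S, (((Finset.range A).filter (fun i => Q (n + i))).card : ℝ) := by
          refine Finset.sum_le_sum fun n hn => ?_
          rw [hS, Finset.mem_filter] at hn
          exact hn.2
      _ ≤ _ := by
          refine Finset.sum_le_sum_of_subset_of_nonneg ?_ fun _ _ _ => Nat.cast_nonneg _
          rw [hS]; exact Finset.filter_subset _ _
  have h2 : ∑ n ∈ Finset.Icc 1 N, (((Finset.range A).filter (fun i => Q (n + i))).card : ℝ) =
      ∑ i ∈ Finset.range A, (((Finset.Icc 1 N).filter (fun n => Q (n + i))).card : ℝ) := by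
    simp only [Finset.card_filter, Nat.cast_sum]
    rw [Finset.sum_comm]
  have h3 : ∀ i ∈ Finset.range A, (((Finset.Icc 1 N).filter (fun n => Q (n + i))).card : ℝ) ≤
      δ * ((N + A : ℕ) : ℝ) := by
    intro i hi
    rw [Finset.mem_range] at hi
    refine le_trans ?_ h
    have h4 : ((Finset.Icc 1 N).filter (fun n => Q (n + i))).image (fun n => n + i) ⊆
        (Finset.Icc 1 (N + A)).filter Q := by
      intro m hm
      rw [Finset.mem_image] at hm
      obtain ⟨n, hn, rfl⟩ := hm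
      rw [Finset.mem_filter, Finset.mem_Icc] at hn ⊢
      exact ⟨⟨by omega, by omega⟩, hn.2⟩
    have h5 := Finset.card_le_card h4
    rw [Finset.card_image_of_injective _ (fun a b hab => by simpa using hab)] at h5
    exact_mod_cast h5
  have h6 := Finset.sum_le_sum h3
  rw [Finset.sum_const, Finset.card_range, nsmul_eq_mul, ← h2] at h6
  have h7 := h1.trans h6
  have h8 : (A:ℝ) * (S.card : ℝ) ≤ A * (4 * δ * ((N + A : ℕ) : ℝ)) := by linarith
  exact le_of_mul_le_mul_left h8 hA0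

lemma exists_R (k e b : ℕ) (K εb : ℝ) (hεb : 0 < εb) : ∃ R : ℝ, 1 ≤ R ∧
    (k + 1) * (((1 + b / R) ^ e - 1) * ((b + k) * (2 * Real.pi * K))) ≤ εb / 4 := by
  have h1 : Tendsto (fun R : ℝ => (b : ℝ) / R) atTop (𝓝 0) := tendsto_const_nhds.div_atTop tendsto_id
  have h2 : Tendsto (fun R : ℝ => ((k:ℝ) + 1) * (((1 + (b:ℝ) / R) ^ e - 1) * ((b + k) * (2 * Real.pi * K)))) atTop
      (𝓝 (((k:ℝ) + 1) * (((1 + 0) ^ e - 1) * ((b + k) * (2 * Real.pi * K))))) :=
    (((tendsto_const_nhds.add h1).pow e).sub tendsto_const_nhds).mul_const _ |>.const_mul _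
  rw [add_zero, one_pow, sub_self, zero_mul, mul_zero] at h2
  obtain ⟨R, h3, h4⟩ := ((h2.eventually (gt_mem_nhds (show 0 < εb / 4 by positivity))).and
    (eventually_ge_atTop 1)).exists
  exact ⟨R, h4, h3.le⟩

lemma card_or2 {P R : ℕ → Prop} {dP : DecidablePred P} {dR : DecidablePred R} (n0 N : ℕ)
    (h : ∀ n, n0 ≤ n → R n → P n) {x : ℝ} (hP : ((@Finset.filter ℕ P dP (Finset.Icc 1 N)).card : ℝ) ≤ x) :
    ((@Finset.filter ℕ R dR (Finset.Icc 1 N)).card : ℝ) ≤ n0 + x := by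
  have h1 : (Finset.Icc 1 N).filter R ⊆ Finset.range n0 ∪ (Finset.Icc 1 N).filter P := by
    intro n hn
    rw [Finset.mem_filter] at hn
    rw [Finset.mem_union, Finset.mem_filter, Finset.mem_range]
    rcases lt_or_ge n n0 with h3 | h3
    · exact Or.inl h3
    · exact Or.inr ⟨hn.1, h n h3 hn.2⟩
  have h2 : ((Finset.Icc 1 N).filter R).card ≤ n0 + ((Finset.Icc 1 N).filter P).card := by
    refine (Finset.card_le_card h1).trans ((Finset.card_union_le _ _).trans ?_)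
    rw [Finset.card_range]
  have h3 : (((Finset.Icc 1 N).filter R).card : ℝ) ≤ n0 + ((Finset.Icc 1 N).filter P).card := by exact_mod_cast h2
  linarith

/-- a relation gives many bad positions -/
lemma many_bad {k e d b A n n1 n2 : ℕ} {ε εb K R : ℝ} {Q : ℕ → Prop} {dQ : DecidablePred Q}
    (hQ1 : ∀ m, Rel0 k (max d e) b εb m → Q m) (hQ2 : ∀ m, Big K (b + k) m → Q m) (hK : 0 < K) (hR : 1 ≤ R)
    (hA1 : b ≤ A) (hA3 : ((k:ℝ) + 1) * (e * (2 * R + 1)) < A / 4) (hε0 : 0 < ε) (hεb : 0 < εb)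
    (hε1 : ε * (1 + ((2 * A : ℕ) : ℝ)) ^ e ≤ εb / 8)
    (hR2 : (k + 1) * (((1 + b / R) ^ e - 1) * ((b + k) * (2 * Real.pi * K))) ≤ εb / 4)
    (hn1 : 1 ≤ n1) (hlog : ∀ n : ℕ, n1 ≤ n → Real.log (ord (n + A)) ≤ 2 * Real.log (ord n))
    (ho : ∀ n : ℕ, n2 ≤ n → Real.exp 1 ≤ ord n) (hn : max n1 n2 ≤ n) (hrel : RelP k e d (2 * A) ε n) :
    (A : ℝ) / 4 ≤ ((@Finset.filter ℕ (fun i => Q (n + i)) (fun i => dQ (n + i)) (Finset.range A)).card : ℝ) := by
  classical
  by_contra hcon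
  push Not at hcon
  obtain ⟨c, P, hc, hP, hone, hrel⟩ := hrel
  have hn1' : n1 ≤ n := (le_max_left _ _).trans hn
  have hn2' : n2 ≤ n := (le_max_right _ _).trans hn
  -- a good position
  obtain ⟨i0, hi0, hg1, hg2⟩ : ∃ i0 < A, ¬ Q (n + i0) ∧ ∀ j ≤ k, ¬ Near (c j) R i0 := by
    by_contra hno
    have hsub : Finset.range A ⊆ (Finset.range A).filter (fun i => Q (n + i)) ∪ (Finset.range (k + 1)).biUnion
        (fun j => (Finset.range A).filter (fun i : ℕ => Near (c j) R i)) := by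
      intro i hi
      rw [Finset.mem_union, Finset.mem_filter, Finset.mem_biUnion]
      by_cases hb : Q (n + i)
      · exact Or.inl ⟨hi, hb⟩
      · right
        by_contra h5
        apply hno
        refine ⟨i, Finset.mem_range.1 hi, hb, fun j hj hnr => h5 ?_⟩
        exact ⟨j, Finset.mem_range.2 (by omega), Finset.mem_filter.2 ⟨hi, hnr⟩⟩
    have h2 : (A : ℝ) ≤ (((Finset.range A).filter (fun i => Q (n + i))).card : ℝ) + ∑ j ∈ Finset.range (k + 1),
        (((Finset.range A).filter (fun i : ℕ => Near (c j) R i)).card : ℝ) := by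
      have := (Finset.card_le_card hsub).trans ((Finset.card_union_le _ _).trans
        (Nat.add_le_add_left Finset.card_biUnion_le _))
      rw [Finset.card_range] at this
      exact_mod_cast this
    have h3 : ∑ j ∈ Finset.range (k + 1), (((Finset.range A).filter (fun i : ℕ => Near (c j) R i)).card : ℝ) ≤
        (k + 1) * (e * (2 * R + 1)) := by
      refine (Finset.sum_le_sum fun j hj => card_Near (hc j ?_) (by linarith) A).trans ?_
      · have := Finset.mem_range.1 hj; omega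
      · rw [Finset.sum_const, Finset.card_range, nsmul_eq_mul]
        push_cast
        exact le_rfl
    have h4 : ((@Finset.filter ℕ (fun i => Q (n + i)) (fun i => dQ (n + i)) (Finset.range A)).card : ℝ) =
        (((Finset.range A).filter (fun i => Q (n + i))).card : ℝ) := by congr
    rw [h4] at hcon
    have hpos : 0 ≤ ((k:ℝ) + 1) * (e * (2 * R + 1)) := by positivity
    linarith
  refine hg1 (hQ1 _ (reduce (by omega) (ho n hn2') hK hR (show i0 + b ≤ 2 * A by omega) hε0 hεb hε1 hR2 ?_ ?_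
    hc hP hone hrel hg2))
  · refine (Real.log_le_log (SG.ord_pos (by omega)) (SG.ord_mono (by omega) ?_)).trans (hlog n hn1')
    omega
  · exact fun h => hg1 (hQ2 _ h)

open Classical in
/-- **no holonomic relations on almost all blocks** -/
theorem hol (hA : S_SA) (hL : S_SL) (hT : S_ST) (hC : S_SC) (k e d : ℕ) (θ : ℝ) (hθ : 0 < θ) :
    ∃ (B : ℕ) (ε : ℝ), e < B ∧ 0 < ε ∧ ∀ᶠ N : ℕ in atTop,
    (((Finset.Icc 1 N).filter (fun n => RelP k e d B ε n)).card : ℝ) ≤ θ * N := by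
  obtain ⟨b, εb, hεb, h0⟩ := norec hA hL hT hC k (max d e) (θ / 32) (by positivity)
  obtain ⟨K, hK, hw⟩ := Pool.Agent.X112.GS.tight_window (tight_xx hT hC) (b + k) (θ / 32) (by positivity)
  have hw' := hw (Finset.range (b + k)) (by rw [Finset.card_range])
  obtain ⟨R, hR, hR2⟩ := exists_R k e b K εb hεb
  obtain ⟨A, hAb⟩ : ∃ A : ℕ, (b : ℝ) + 1 + 4 * ((k + 1) * (e * (2 * R + 1))) + 1 ≤ A := ⟨_, Nat.le_ceil _⟩
  have hpos : 0 ≤ ((k:ℝ) + 1) * (e * (2 * R + 1)) := by positivity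
  have hA1 : b ≤ A := by
    have : (b : ℝ) ≤ A := by linarith
    exact_mod_cast this
  have hA2 : 0 < A := by
    have : (0 : ℝ) < A := by linarith [(Nat.cast_nonneg b : (0:ℝ) ≤ b)]
    exact_mod_cast this
  have hA3 : ((k:ℝ) + 1) * (e * (2 * R + 1)) < A / 4 := by
    linarith [(Nat.cast_nonneg b : (0:ℝ) ≤ b)]
  obtain ⟨ε, hε⟩ : ∃ ε : ℝ, ε = εb / (8 * (1 + ((2 * A : ℕ) : ℝ)) ^ e) := ⟨_, rfl⟩
  have hε0 : 0 < ε := by rw [hε]; positivity
  have hε1 : ε * (1 + ((2 * A : ℕ) : ℝ)) ^ e ≤ εb / 8 := by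
    rw [hε]
    apply le_of_eq
    field_simp
  obtain ⟨n1, hn1, hlog⟩ := log_ord A
  obtain ⟨n2, hn2, ho⟩ := ord_ge_ev (Real.exp 1)
  obtain ⟨Q, hQ⟩ : ∃ Q : ℕ → Prop, ∀ m, Q m ↔ (Rel0 k (max d e) b εb m ∨ Big K (b + k) m) :=
    ⟨fun m => (Rel0 k (max d e) b εb m ∨ Big K (b + k) m), fun _ => Iff.rfl⟩
  have heB : e < 2 * A := by
    have h1 : (e:ℝ) * 1 ≤ e * (2 * R + 1) := mul_le_mul_of_nonneg_left (by linarith) (Nat.cast_nonneg e)
    have h2 : 1 * ((e:ℝ) * (2 * R + 1)) ≤ ((k:ℝ) + 1) * (e * (2 * R + 1)) :=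
      mul_le_mul_of_nonneg_right (by linarith [(Nat.cast_nonneg k : (0:ℝ) ≤ k)]) (by positivity)
    have h3 : (0:ℝ) < A := by exact_mod_cast hA2
    have h4 : (e:ℝ) < 2 * A := by linarith
    exact_mod_cast h4
  refine ⟨2 * A, ε, heB, hε0, ?_⟩
  have hshift : Tendsto (fun N : ℕ => N + A) atTop atTop := tendsto_add_atTop_nat A
  filter_upwards [hshift.eventually h0, hshift.eventually hw', card_init (max n1 n2) (θ / 8) (by positivity),
    eventually_ge_atTop A] with N h1 h2 h3 h4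
  have h5 : ((@Finset.filter ℕ Q (Classical.decPred _) (Finset.Icc 1 (N + A))).card : ℝ) ≤
      ((0:ℕ) : ℝ) + (θ / 32 * ((N + A : ℕ) : ℝ) + θ / 32 * ((N + A : ℕ) : ℝ)) :=
    card_or3 0 (N + A) (fun n _ hn => (hQ n).1 hn) h1 h2
  have h6 := block_count A hA2 N (θ / 16) (h5.trans (le_of_eq (by push_cast; ring)))
  refine (card_or2 (max n1 n2) N ?_ h6).trans ?_
  · intro n hn hr
    exact many_bad (fun m h => (hQ m).2 (Or.inl h)) (fun m h => (hQ m).2 (Or.inr h)) hK hR hA1 hA3 hε0 hεb hε1 hR2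
      hn1 hlog ho hn hr
  · have h8 : (A : ℝ) ≤ N := by exact_mod_cast h4
    push_cast at h3 ⊢
    nlinarith

end

end Pool.Agent.V8Lead.OR
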