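import Pool.Agent.V8Lead.OR.Fin1
import Pool.Agent.V8Lead.OR.Hol
import Pool.Agent.V8H58.OR.Dev
import Pool.Agent.V8H58.OR.DY
import Pool.Agent.V8H58.OR.UI

/-! Project OR (lead): assembly, the sequence of the ordinates. -/

set_option autoImplicit false

namespace Pool.Agent.V8Lead.OR

theorem wl : S_WL := Pool.Agent.V8H58.OR.t_WL core l2q

theorem wt : S_WT := Pool.Agent.V8H58.OR.t_WT core l2q

theorem ui : S_UI := Pool.Agent.V8H58.OR.t_UI core l2q

theorem sa : S_SA := t_SA wm wt ui Pool.Agent.V8H58.OR.t_DY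

theorem sl : S_SL := t_SL wl ui Pool.Agent.V8H58.OR.t_DY

theorem st : S_ST := t_ST sl

theorem sc : S_SC := t_SC st

end Pool.Agent.V8Lead.OR
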