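import Pool.Agent.V8Lead.OR.Fin2
import Pool.Agent.V8H54.OR.Mt
import Pool.Agent.V8H86.OR.Ab

/-! Project OR (lead): assembly, translates of the ordinates. -/

set_option autoImplicit false

namespace Pool.Agent.V8Lead.OR

theorem mt : S_MT := Pool.Agent.V8H54.OR.t_MT' ab wl

end Pool.Agent.V8Lead.OR
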