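import Mathlib

/-! Project OR (lead): polynomials vary slowly away from the real parts of their roots. -/

set_option autoImplicit false

namespace Pool.Agent.V8Lead.OR

open Polynomial

/-- products of numbers near `1` -/
lemma prod_near (s : Multiset ℂ) {τ : ℝ} (hτ : 0 ≤ τ) (h : ∀ x ∈ s, ‖x‖ ≤ τ) :
    ‖(s.map fun x => 1 + x).prod‖ ≤ (1 + τ) ^ s.card ∧ ‖(s.map fun x => 1 + x).prod - 1‖ ≤ (1 + τ) ^ s.card - 1 := by
  induction s using Multiset.induction_on with
  | empty => simp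
  | cons a s ih =>
    obtain ⟨h1, h2⟩ := ih fun x hx => h x (Multiset.mem_cons_of_mem hx)
    have ha := h a (Multiset.mem_cons_self a s)
    have h3 : ‖(1:ℂ) + a‖ ≤ 1 + τ := (norm_add_le _ _).trans (by rw [norm_one]; linarith)
    rw [Multiset.map_cons, Multiset.prod_cons, Multiset.card_cons, pow_succ]
    have h4 : (1:ℝ) ≤ (1 + τ) ^ s.card := one_le_pow₀ (by linarith)
    constructor
    · rw [norm_mul, mul_comm]
      exact mul_le_mul h1 h3 (norm_nonneg _) (by positivity)
    · have e : (1 + a) * (s.map fun x => 1 + x).prod - 1 = ((s.map fun x => 1 + x).prod - 1) +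
          a * (s.map fun x => 1 + x).prod := by ring
      rw [e]
      refine (norm_add_le _ _).trans ?_
      rw [norm_mul]
      have h5 : ‖a‖ * ‖(s.map fun x => 1 + x).prod‖ ≤ τ * (1 + τ) ^ s.card :=
        mul_le_mul ha h1 (norm_nonneg _) hτ
      linarith

/-- the positions near the real part of a root -/
def Near (q : ℝ[X]) (R x : ℝ) : Prop := ∃ z ∈ (q.map (algebraMap ℝ ℂ)).roots, |x - z.re| < R

lemma slow {q : ℝ[X]} {e : ℕ} (hq : q.natDegree ≤ e) {R x : ℝ} (hR : 0 < R) (hx : ¬ Near q R x) (y : ℝ) :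
    |q.eval (x + y)| ≤ (1 + |y| / R) ^ e * |q.eval x| ∧
    |q.eval (x + y) - q.eval x| ≤ ((1 + |y| / R) ^ e - 1) * |q.eval x| := by
  have hsp : (q.map (algebraMap ℝ ℂ)).Splits := IsAlgClosed.splits _
  have hev : ∀ u : ℝ, ((q.eval u : ℝ) : ℂ) = (q.map (algebraMap ℝ ℂ)).leadingCoeff *
      ((q.map (algebraMap ℝ ℂ)).roots.map fun z => (u : ℂ) - z).prod := by
    intro u
    rw [← hsp.eval_eq_prod_roots]
    have e : (u : ℂ) = algebraMap ℝ ℂ u := rfl
    rw [e, Polynomial.eval_map, Polynomial.eval₂_at_apply]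
    rfl
  have hfar : ∀ z ∈ (q.map (algebraMap ℝ ℂ)).roots, R ≤ ‖(x : ℂ) - z‖ := by
    intro z hz
    have h1 : ¬ |x - z.re| < R := fun h => hx ⟨z, hz, h⟩
    push Not at h1
    refine h1.trans ?_
    have := Complex.abs_re_le_norm ((x : ℂ) - z)
    simpa using this
  obtain ⟨s, hs⟩ : ∃ s : Multiset ℂ, s = (q.map (algebraMap ℝ ℂ)).roots.map fun z => (y : ℂ) / ((x : ℂ) - z) := ⟨_, rfl⟩
  have hτ : ∀ w ∈ s, ‖w‖ ≤ |y| / R := by
    intro w hw
    rw [hs, Multiset.mem_map] at hw
    obtain ⟨z, hz, rfl⟩ := hw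
    rw [norm_div, Complex.norm_real, Real.norm_eq_abs]
    exact div_le_div_of_nonneg_left (abs_nonneg _) hR (hfar z hz)
  have hcard : s.card ≤ e := by
    rw [hs, Multiset.card_map]
    exact (Polynomial.card_roots' _).trans ((Polynomial.natDegree_map_le).trans hq)
  have hprod : ((q.eval (x + y) : ℝ) : ℂ) = ((q.eval x : ℝ) : ℂ) * (s.map fun w => 1 + w).prod := by
    rw [hev, hev, hs, Multiset.map_map, mul_assoc, ← Multiset.prod_map_mul]
    congr 2
    refine Multiset.map_congr rfl fun z hz => ?_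
    have h0 : (x : ℂ) - z ≠ 0 := by
      intro h
      have := hfar z hz
      rw [h, norm_zero] at this
      linarith
    simp only [Function.comp]
    push_cast
    field_simp
    ring
  obtain ⟨h1, h2⟩ := prod_near s (by positivity) hτ
  have h3 : (1 + |y| / R) ^ s.card ≤ (1 + |y| / R) ^ e :=
    pow_le_pow_right₀ (by have : 0 ≤ |y| / R := by positivity
                          linarith) hcard
  constructor
  · have e1 : |q.eval (x + y)| = ‖((q.eval (x + y) : ℝ) : ℂ)‖ := by rw [Complex.norm_real, Real.norm_eq_abs]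
    rw [e1, hprod, norm_mul, Complex.norm_real, Real.norm_eq_abs, mul_comm]
    exact mul_le_mul_of_nonneg_right (h1.trans h3) (abs_nonneg _)
  · have e1 : |q.eval (x + y) - q.eval x| = ‖((q.eval (x + y) : ℝ) : ℂ) - ((q.eval x : ℝ) : ℂ)‖ := by
      rw [← Complex.ofReal_sub, Complex.norm_real, Real.norm_eq_abs]
    have e2 : ((q.eval (x + y) : ℝ) : ℂ) - ((q.eval x : ℝ) : ℂ) =
        ((q.eval x : ℝ) : ℂ) * ((s.map fun w => 1 + w).prod - 1) := by rw [hprod]; ring
    rw [e1, e2, norm_mul, Complex.norm_real, Real.norm_eq_abs, mul_comm]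
    exact mul_le_mul_of_nonneg_right (h2.trans (by linarith)) (abs_nonneg _)

/-- a short interval contains few integers -/
lemma card_near (a R : ℝ) (hR : 0 < R) (M : ℕ) [DecidablePred fun i : ℕ => |(i : ℝ) - a| < R] :
    (((Finset.range M).filter (fun i : ℕ => |(i : ℝ) - a| < R)).card : ℝ) ≤ 2 * R + 1 := by
  have h1 : (Finset.range M).filter (fun i : ℕ => |(i : ℝ) - a| < R) ⊆ Finset.Icc ⌈a - R⌉₊ ⌊a + R⌋₊ := by
    intro i hi
    rw [Finset.mem_filter, abs_lt] at hi
    rw [Finset.mem_Icc]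
    exact ⟨Nat.ceil_le.2 (by linarith [hi.2.1]), Nat.le_floor (by linarith [hi.2.2])⟩
  have h2 := Finset.card_le_card h1
  rw [Nat.card_Icc] at h2
  rcases le_or_gt ⌈a - R⌉₊ (⌊a + R⌋₊ + 1) with h3 | h3
  · have h4 : (((Finset.range M).filter (fun i : ℕ => |(i : ℝ) - a| < R)).card : ℝ) ≤
        (⌊a + R⌋₊ : ℝ) + 1 - ⌈a - R⌉₊ := by
      have : (((⌊a + R⌋₊ + 1 - ⌈a - R⌉₊ : ℕ)) : ℝ) = (⌊a + R⌋₊ : ℝ) + 1 - ⌈a - R⌉₊ := by
        rw [Nat.cast_sub h3]; push_cast; ring
      rw [← this]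
      exact_mod_cast h2
    have h5 : a - R ≤ ⌈a - R⌉₊ := Nat.le_ceil _
    rcases le_or_gt 0 (a + R) with h6 | h6
    · have h7 := Nat.floor_le h6
      linarith
    · rw [Nat.floor_of_nonpos h6.le] at h4
      have h8 : (0:ℝ) ≤ ⌈a - R⌉₊ := Nat.cast_nonneg _
      push_cast at h4
      linarith
  · have h4 : ⌊a + R⌋₊ + 1 - ⌈a - R⌉₊ = 0 := by omega
    rw [h4] at h2
    have : ((Finset.range M).filter (fun i : ℕ => |(i : ℝ) - a| < R)).card = 0 := by omega
    rw [this]
    push_cast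
    linarith

open Classical in
/-- few positions are near the real part of a root -/
lemma card_Near {q : ℝ[X]} {e : ℕ} (hq : q.natDegree ≤ e) {R : ℝ} (hR : 0 < R) (M : ℕ) :
    (((Finset.range M).filter (fun i : ℕ => Near q R i)).card : ℝ) ≤ e * (2 * R + 1) := by
  have h1 : (Finset.range M).filter (fun i : ℕ => Near q R i) ⊆
      (q.map (algebraMap ℝ ℂ)).roots.toFinset.biUnion
        (fun z => (Finset.range M).filter (fun i : ℕ => |(i : ℝ) - z.re| < R)) := by
    intro i hi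
    rw [Finset.mem_filter] at hi
    obtain ⟨h, z, hz, h2⟩ := hi
    rw [Finset.mem_biUnion]
    exact ⟨z, Multiset.mem_toFinset.2 hz, Finset.mem_filter.2 ⟨h, h2⟩⟩
  have h2 : (((Finset.range M).filter (fun i : ℕ => Near q R i)).card : ℝ) ≤
      ∑ z ∈ (q.map (algebraMap ℝ ℂ)).roots.toFinset,
        (((Finset.range M).filter (fun i : ℕ => |(i : ℝ) - z.re| < R)).card : ℝ) := by
    exact_mod_cast (Finset.card_le_card h1).trans Finset.card_biUnion_le
  refine h2.trans ((Finset.sum_le_sum fun z _ => card_near z.re R hR M).trans ?_)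
  rw [Finset.sum_const, nsmul_eq_mul]
  apply mul_le_mul_of_nonneg_right _ (by positivity)
  have h3 : (q.map (algebraMap ℝ ℂ)).roots.toFinset.card ≤ e :=
    (Multiset.toFinset_card_le _).trans ((Polynomial.card_roots' _).trans ((Polynomial.natDegree_map_le).trans hq))
  exact_mod_cast h3

end Pool.Agent.V8Lead.OR
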