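import Pool.Agent.V8Lead.OR.NoRec
import Pool.Agent.V8Lead.OR.Poly
import Pool.Agent.W200.HW

/-! Project OR (lead): from holonomic relations to relations with constant coefficients. -/

set_option autoImplicit false

namespace Pool.Agent.V8Lead.OR

open Filter Topology MeasureTheory Polynomial
open SG (NZ ord)

noncomputable section

/-- a relation with constant coefficients on `b` consecutive positions -/
def Rel0 (k d b : ℕ) (ε : ℝ) (n : ℕ) : Prop := ∃ (c : ℕ → ℝ) (P : ℝ[X]), (∃ j ≤ k, 1 ≤ |c j|) ∧ P.natDegree ≤ d ∧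
  ∀ i < b, |∑ j ∈ Finset.range (k + 1), c j * ord (n + i + j) - P.eval (i : ℝ)| < ε / Real.log (ord n)

/-- a relation with polynomial coefficients on `B` consecutive positions -/
def RelP (k e d B : ℕ) (ε : ℝ) (n : ℕ) : Prop := ∃ (c : ℕ → ℝ[X]) (P : ℝ[X]), (∀ j ≤ k, (c j).natDegree ≤ e) ∧
  P.natDegree ≤ d ∧ (∃ j ≤ k, ∃ i < B, 1 ≤ |(c j).eval (i : ℝ)|) ∧
  ∀ i < B, |∑ j ∈ Finset.range (k + 1), (c j).eval (i : ℝ) * ord (n + i + j) - P.eval (i : ℝ)| < ε / Real.log (ord n)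

/-- a large gap nearby -/
def Big (K : ℝ) (q n : ℕ) : Prop := ∃ f ∈ Finset.range q, K < |xx (n + f)|

lemma gap_sum {n q : ℕ} {K : ℝ} (hn : 1 ≤ n) (ho : Real.exp 1 ≤ ord n) (hb : ¬ Big K q n) :
    ∀ m ≤ q, ord (n + m) - ord n ≤ m * (2 * Real.pi * K / Real.log (ord n)) := by
  have hpi := Real.pi_gt_three
  have o3 : 1 ≤ ord n := by linarith [Real.add_one_le_exp (1:ℝ)]
  have o4 : 1 ≤ Real.log (ord n) := by
    rw [Real.le_log_iff_exp_le (by linarith)]; exact ho
  intro m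
  induction m with
  | zero => intro _; simp
  | succ m ih =>
    intro hm
    have h1 := ih (by omega)
    have h2 : |xx (n + m)| ≤ K := by
      by_contra h
      push Not at h
      exact hb ⟨m, Finset.mem_range.2 (by omega), h⟩
    have h3 := (le_abs_self _).trans h2
    have h4 : xx (n + m) = (ord (n + m + 1) - ord (n + m)) * Real.log (ord (n + m)) / (2 * Real.pi) := rfl
    have h5 : ord n ≤ ord (n + m) := SG.ord_mono hn (by omega)
    have h6 : ord (n + m) ≤ ord (n + m + 1) := SG.ord_mono (by omega) (by omega)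
    have h7 : Real.log (ord n) ≤ Real.log (ord (n + m)) := Real.log_le_log (by linarith) h5
    rw [h4, div_le_iff₀ (by positivity)] at h3
    have h8 : ord (n + m + 1) - ord (n + m) ≤ 2 * Real.pi * K / Real.log (ord n) := by
      rw [le_div_iff₀ (by linarith)]
      have : (ord (n + m + 1) - ord (n + m)) * Real.log (ord n) ≤
          (ord (n + m + 1) - ord (n + m)) * Real.log (ord (n + m)) :=
        mul_le_mul_of_nonneg_left h7 (by linarith)
      linarith
    have h9 : n + (m + 1) = n + m + 1 := by ring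
    rw [h9]
    push_cast
    linarith

/-- the reduction at a good position -/
lemma reduce {k e d B b n i0 : ℕ} {ε εb K R : ℝ} (hn : 1 ≤ n) (ho : Real.exp 1 ≤ ord n) (hK : 0 < K) (hR : 1 ≤ R)
    (hi0 : i0 + b ≤ B) (hε : 0 < ε) (hεb : 0 < εb) (he1 : ε * (1 + B) ^ e ≤ εb / 8)
    (he2 : (k + 1) * (((1 + b / R) ^ e - 1) * ((b + k) * (2 * Real.pi * K))) ≤ εb / 4)
    (hlog : Real.log (ord (n + i0)) ≤ 2 * Real.log (ord n)) (hbig : ¬ Big K (b + k) (n + i0))
    {c : ℕ → ℝ[X]} {P : ℝ[X]} (hc : ∀ j ≤ k, (c j).natDegree ≤ e) (hP : P.natDegree ≤ d)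
    (h1 : ∃ j ≤ k, ∃ i < B, 1 ≤ |(c j).eval (i : ℝ)|)
    (hrel : ∀ i < B, |∑ j ∈ Finset.range (k + 1), (c j).eval (i : ℝ) * ord (n + i + j) - P.eval (i : ℝ)| <
      ε / Real.log (ord n)) (hnear : ∀ j ≤ k, ¬ Near (c j) R i0) : Rel0 k (max d e) b εb (n + i0) := by
  have hpi := Real.pi_pos
  have hR0 : 0 < R := by linarith
  have o3 : 1 ≤ ord n := by linarith [Real.add_one_le_exp (1:ℝ)]
  have o4 : 1 ≤ Real.log (ord n) := by
    rw [Real.le_log_iff_exp_le (by linarith)]; exact ho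
  have o5 : ord n ≤ ord (n + i0) := SG.ord_mono hn (by omega)
  have o6 : Real.log (ord n) ≤ Real.log (ord (n + i0)) := Real.log_le_log (by linarith) o5
  obtain ⟨L, hL⟩ : ∃ L : ℝ, L = Real.log (ord (n + i0)) := ⟨_, rfl⟩
  rw [← hL] at hlog o6
  have hL0 : 0 < L := by linarith
  -- the size
  obtain ⟨j1, hj1, i1, hi1, hone⟩ := h1
  have hsize : 1 / (1 + (B:ℝ)) ^ e ≤ |(c j1).eval (i0 : ℝ)| := by
    have h2 := (slow (hc j1 hj1) hR0 (hnear j1 hj1) ((i1 : ℝ) - i0)).1
    have e1 : (i0 : ℝ) + (i1 - i0) = i1 := by ring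
    rw [e1] at h2
    have h3 : |(i1 : ℝ) - i0| ≤ B := by
      have a1 : (i1 : ℝ) ≤ B := by exact_mod_cast hi1.le
      have a2 : (i0 : ℝ) ≤ B := by exact_mod_cast (by omega : i0 ≤ B)
      have a3 : (0:ℝ) ≤ i1 := Nat.cast_nonneg _
      have a4 : (0:ℝ) ≤ i0 := Nat.cast_nonneg _
      rw [abs_le]; constructor <;> linarith
    have h4 : (1 + |(i1 : ℝ) - i0| / R) ^ e ≤ (1 + (B:ℝ)) ^ e := by
      apply pow_le_pow_left₀ (by positivity)
      have : |(i1 : ℝ) - i0| / R ≤ B := by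
        rw [div_le_iff₀ hR0]
        have : (B:ℝ) * 1 ≤ B * R := mul_le_mul_of_nonneg_left hR (Nat.cast_nonneg _)
        linarith
      linarith
    rw [div_le_iff₀ (by positivity)]
    have h5 := mul_le_mul_of_nonneg_right h4 (abs_nonneg ((c j1).eval (i0 : ℝ)))
    linarith
  obtain ⟨j0, hj0, hmax⟩ := Finset.exists_max_image (Finset.range (k + 1)) (fun j => |(c j).eval (i0 : ℝ)|) ⟨0, by simp⟩
  rw [Finset.mem_range] at hj0
  obtain ⟨M, hM⟩ : ∃ M : ℝ, M = |(c j0).eval (i0 : ℝ)| := ⟨_, rfl⟩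
  have hMs : 1 / (1 + (B:ℝ)) ^ e ≤ M := by
    rw [hM]; exact hsize.trans (hmax j1 (Finset.mem_range.2 (by omega)))
  have hM0 : 0 < M := lt_of_lt_of_le (by positivity) hMs
  have hM1 : 1 / M ≤ (1 + (B:ℝ)) ^ e := by
    rw [div_le_iff₀ hM0]
    rw [div_le_iff₀ (by positivity)] at hMs
    linarith
  refine ⟨fun j => (c j).eval (i0 : ℝ) / M,
    Polynomial.C (1 / M) * (P.comp (Polynomial.X + Polynomial.C (i0 : ℝ)) - Polynomial.C (ord (n + i0)) *
      ∑ j ∈ Finset.range (k + 1), ((c j).comp (Polynomial.X + Polynomial.C (i0 : ℝ)) -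
        Polynomial.C ((c j).eval (i0 : ℝ)))), ?_, ?_, fun i hi => ?_⟩
  · refine ⟨j0, by omega, ?_⟩
    rw [abs_div, ← hM, abs_of_pos hM0, div_self hM0.ne']
  · have hcomp : ∀ q : ℝ[X], (q.comp (Polynomial.X + Polynomial.C (i0 : ℝ))).natDegree ≤ q.natDegree := by
      intro q
      refine Polynomial.natDegree_comp_le.trans ?_
      rw [Polynomial.natDegree_X_add_C, mul_one]
    refine (Polynomial.natDegree_C_mul_le _ _).trans ((Polynomial.natDegree_sub_le _ _).trans (max_le ?_ ?_))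
    · exact ((hcomp P).trans hP).trans (le_max_left _ _)
    · refine (Polynomial.natDegree_C_mul_le _ _).trans (le_trans ?_ (le_max_right d e))
      refine Polynomial.natDegree_sum_le_of_forall_le _ _ fun j hj => ?_
      rw [Finset.mem_range] at hj
      refine (Polynomial.natDegree_sub_le _ _).trans (max_le ((hcomp _).trans (hc j (by omega))) ?_)
      rw [Polynomial.natDegree_C]
      exact Nat.zero_le _
  have r1 := hrel (i0 + i) (by omega)
  have e0 : ∀ j, ord (n + (i0 + i) + j) = ord (n + i0 + i + j) := fun j => by congr 1; ring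
  have ecast : ((i0 + i : ℕ) : ℝ) = (i : ℝ) + i0 := by push_cast; ring
  -- the terms
  have hterm : ∀ j ∈ Finset.range (k + 1), |((c j).eval ((i : ℝ) + i0) - (c j).eval (i0 : ℝ)) *
      (ord (n + i0 + i + j) - ord (n + i0))| ≤
      M * (((1 + b / R) ^ e - 1) * ((b + k) * (2 * Real.pi * K / L))) := by
    intro j hj
    rw [Finset.mem_range] at hj
    have g1 := (slow (hc j (by omega)) hR0 (hnear j (by omega)) (i : ℝ)).2
    have g2 : |(i:ℝ)| = i := Nat.abs_cast i
    rw [g2, add_comm (i0 : ℝ) (i : ℝ)] at g1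
    have g3 : ((1 + (i:ℝ) / R) ^ e - 1) ≤ ((1 + (b:ℝ) / R) ^ e - 1) := by
      have : (1 + (i:ℝ) / R) ^ e ≤ (1 + (b:ℝ) / R) ^ e := by
        apply pow_le_pow_left₀ (by positivity)
        have : (i:ℝ) / R ≤ b / R := div_le_div_of_nonneg_right (by exact_mod_cast hi.le) hR0.le
        linarith
      linarith
    have g4 : |(c j).eval (i0 : ℝ)| ≤ M := by
      rw [hM]; exact hmax j (Finset.mem_range.2 (by omega))
    have hbR : 0 ≤ (b:ℝ) / R := by positivity
    have g5 : 0 ≤ ((1 + (b:ℝ) / R) ^ e - 1) := by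
      have : (1:ℝ) ≤ (1 + (b:ℝ) / R) ^ e := one_le_pow₀ (by linarith)
      linarith
    have g6 : |(c j).eval ((i : ℝ) + i0) - (c j).eval (i0 : ℝ)| ≤ ((1 + (b:ℝ) / R) ^ e - 1) * M :=
      g1.trans (mul_le_mul g3 g4 (abs_nonneg _) g5)
    have g7 := gap_sum (show 1 ≤ n + i0 by omega) (ho.trans o5) hbig (i + j) (by omega)
    rw [← hL, ← add_assoc] at g7
    have g8 : 0 ≤ ord (n + i0 + i + j) - ord (n + i0) := by
      have := SG.ord_mono (show 1 ≤ n + i0 by omega) (show n + i0 ≤ n + i0 + i + j by omega)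
      linarith
    have g9 : ord (n + i0 + i + j) - ord (n + i0) ≤ (b + k) * (2 * Real.pi * K / L) := by
      refine g7.trans (mul_le_mul_of_nonneg_right ?_ (by positivity))
      exact_mod_cast (by omega : i + j ≤ b + k)
    rw [abs_mul, abs_of_nonneg g8]
    calc _ ≤ (((1 + (b:ℝ) / R) ^ e - 1) * M) * ((b + k) * (2 * Real.pi * K / L)) :=
          mul_le_mul g6 g9 g8 (mul_nonneg g5 hM0.le)
      _ = _ := by ring
  have hsum : |∑ j ∈ Finset.range (k + 1), ((c j).eval ((i : ℝ) + i0) - (c j).eval (i0 : ℝ)) *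
      (ord (n + i0 + i + j) - ord (n + i0))| ≤ M * (εb / 4 / L) := by
    refine (Finset.abs_sum_le_sum_abs _ _).trans ((Finset.sum_le_sum hterm).trans ?_)
    rw [Finset.sum_const, Finset.card_range, nsmul_eq_mul]
    have e1 : (((k + 1 : ℕ)) : ℝ) * (M * (((1 + b / R) ^ e - 1) * ((b + k) * (2 * Real.pi * K / L)))) =
        M * (((k + 1) * (((1 + b / R) ^ e - 1) * ((b + k) * (2 * Real.pi * K)))) / L) := by
      push_cast; field_simp
    rw [e1]
    exact mul_le_mul_of_nonneg_left (div_le_div_of_nonneg_right he2 hL0.le) hM0.le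
  have ekey : ∑ j ∈ Finset.range (k + 1), (c j).eval (i0 : ℝ) / M * ord (n + i0 + i + j) -
      (Polynomial.C (1 / M) * (P.comp (Polynomial.X + Polynomial.C (i0 : ℝ)) - Polynomial.C (ord (n + i0)) *
      ∑ j ∈ Finset.range (k + 1), ((c j).comp (Polynomial.X + Polynomial.C (i0 : ℝ)) -
        Polynomial.C ((c j).eval (i0 : ℝ))))).eval (i : ℝ) =
      1 / M * ((∑ j ∈ Finset.range (k + 1), (c j).eval (((i0 + i : ℕ)) : ℝ) * ord (n + (i0 + i) + j) -
        P.eval (((i0 + i : ℕ)) : ℝ)) - ∑ j ∈ Finset.range (k + 1), ((c j).eval ((i : ℝ) + i0) - (c j).eval (i0 : ℝ)) *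
      (ord (n + i0 + i + j) - ord (n + i0))) := by
    rw [ecast]
    simp only [Polynomial.eval_mul, Polynomial.eval_C, Polynomial.eval_sub, Polynomial.eval_finsetSum,
      Polynomial.eval_comp, Polynomial.eval_add, Polynomial.eval_X]
    simp only [e0]
    have e2 : ∑ j ∈ Finset.range (k + 1), (c j).eval (i0 : ℝ) / M * ord (n + i0 + i + j) =
        1 / M * ∑ j ∈ Finset.range (k + 1), (c j).eval (i0 : ℝ) * ord (n + i0 + i + j) := by
      rw [Finset.mul_sum]
      exact Finset.sum_congr rfl fun j _ => by ring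
    have e3 : ∑ j ∈ Finset.range (k + 1), ((c j).eval ((i : ℝ) + i0) - (c j).eval (i0 : ℝ)) *
      (ord (n + i0 + i + j) - ord (n + i0)) =
      (∑ j ∈ Finset.range (k + 1), (c j).eval ((i : ℝ) + i0) * ord (n + i0 + i + j) -
        ∑ j ∈ Finset.range (k + 1), (c j).eval (i0 : ℝ) * ord (n + i0 + i + j)) -
        ord (n + i0) * ∑ j ∈ Finset.range (k + 1), ((c j).eval ((i : ℝ) + i0) - (c j).eval (i0 : ℝ)) := by
      rw [Finset.mul_sum, ← Finset.sum_sub_distrib, ← Finset.sum_sub_distrib]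
      exact Finset.sum_congr rfl fun j _ => by ring
    rw [e2, e3]
    ring
  rw [ekey, abs_mul, abs_of_pos (show 0 < 1 / M by positivity)]
  have h5 : ε / Real.log (ord n) ≤ 2 * ε / L := by
    rw [div_le_div_iff₀ (by linarith) hL0]
    have := mul_le_mul_of_nonneg_left hlog hε.le
    linarith
  have h6 : |(∑ j ∈ Finset.range (k + 1), (c j).eval (((i0 + i : ℕ)) : ℝ) * ord (n + (i0 + i) + j) -
        P.eval (((i0 + i : ℕ)) : ℝ)) - ∑ j ∈ Finset.range (k + 1), ((c j).eval ((i : ℝ) + i0) - (c j).eval (i0 : ℝ)) *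
      (ord (n + i0 + i + j) - ord (n + i0))| ≤ 2 * ε / L + M * (εb / 4 / L) := by
    refine (abs_sub _ _).trans ?_
    linarith
  rw [← hL]
  calc 1 / M * _ ≤ 1 / M * (2 * ε / L + M * (εb / 4 / L)) := mul_le_mul_of_nonneg_left h6 (by positivity)
    _ = (2 * (ε * (1 / M)) + εb / 4) / L := by field_simp
    _ < εb / L := by
        apply div_lt_div_of_pos_right _ hL0
        have := mul_le_mul_of_nonneg_left hM1 hε.le
        linarith

end

end Pool.Agent.V8Lead.OR
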