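import Pool.Agent.V8Lead.OR.Stm2

/-! Project OR (lead): the unfolded ordinates. -/

set_option autoImplicit false

namespace Pool.Agent.V8Lead.OR

open Filter Topology MeasureTheory
open SG (NZ ord)

noncomputable section

lemma uf_diff {a b : ℝ} (ha : 1 ≤ a) (hab : a ≤ b) :
    (b - a) * Real.log a / (2 * Real.pi) ≤ uf b - uf a ∧ uf b - uf a ≤ (b - a) * Real.log b / (2 * Real.pi) := by
  have hpi := Real.pi_pos
  have hb : 1 ≤ b := ha.trans hab
  have ha0 : 0 < a := by linarith
  have hb0 : 0 < b := by linarith
  have h1 : Real.log b - Real.log a ≤ (b - a) / a := by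
    rw [← Real.log_div hb0.ne' ha0.ne']
    refine (Real.log_le_sub_one_of_pos (by positivity)).trans (le_of_eq ?_)
    field_simp
  have h2 : (b - a) / b ≤ Real.log b - Real.log a := by
    rw [← Real.log_div hb0.ne' ha0.ne']
    have := Real.one_sub_inv_le_log_of_pos (show 0 < b / a by positivity)
    refine le_trans (le_of_eq ?_) this
    field_simp
  have h3 : a * (Real.log b - Real.log a) ≤ b - a := by
    calc a * (Real.log b - Real.log a) ≤ a * ((b - a) / a) := mul_le_mul_of_nonneg_left h1 ha0.le
      _ = b - a := by field_simp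
  have h4 : b - a ≤ b * (Real.log b - Real.log a) := by
    calc b - a = b * ((b - a) / b) := by field_simp
      _ ≤ _ := mul_le_mul_of_nonneg_left h2 hb0.le
  unfold uf
  rw [← sub_div]
  constructor
  · apply div_le_div_of_nonneg_right _ (by positivity)
    linarith
  · apply div_le_div_of_nonneg_right _ (by positivity)
    linarith

lemma uf_mono {a b : ℝ} (ha : 1 ≤ a) (hab : a ≤ b) : uf a ≤ uf b := by
  have h := (uf_diff ha hab).1
  have : 0 ≤ (b - a) * Real.log a / (2 * Real.pi) := by
    have := Real.log_nonneg ha
    have := Real.pi_pos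
    have : 0 ≤ b - a := by linarith
    positivity
  linarith

theorem t_LOC : S_LOC := by
  intro A δ hA hδ
  have hpi := Real.pi_pos
  filter_upwards [eventually_ge_atTop (2 * Real.pi * A + 10), eventually_ge_atTop (Real.exp 1),
    Real.tendsto_log_atTop.eventually_ge_atTop (2 * A / δ), Real.tendsto_log_atTop.eventually_ge_atTop 1]
    with T t1 t2 t3 t4 n m hn hnm h1 h2 h3
  have hT : 10 ≤ T := by
    have : 0 ≤ 2 * Real.pi * A := by positivity
    linarith
  have hL : 0 < Real.log T := by linarith
  have hon : 1 ≤ ord n := by linarith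
  have hom : ord n ≤ ord m := SG.ord_mono hn hnm
  obtain ⟨h4, h5⟩ := uf_diff hon hom
  have h6 : Real.log T ≤ Real.log (ord n) := Real.log_le_log (by linarith) h1
  have h7 : (ord m - ord n) * Real.log T / (2 * Real.pi) ≤ uf (ord m) - uf (ord n) := by
    refine le_trans ?_ h4
    apply div_le_div_of_nonneg_right _ (by positivity)
    exact mul_le_mul_of_nonneg_left h6 (by linarith)
  have h8 : (ord m - ord n) * Real.log T / (2 * Real.pi) ≤ A := by
    rcases h3 with h3 | h3
    · exact h7.trans h3
    · exact h3
  have h9 : ord m - ord n ≤ 2 * Real.pi * A / Real.log T := by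
    rw [div_le_iff₀ (by positivity)] at h8
    rw [le_div_iff₀ hL]
    linarith
  have h10 : ord m - ord n ≤ 2 * Real.pi * A := by
    refine h9.trans (div_le_self (by positivity) t4)
  have h11 : ord m ≤ 3 * T := by linarith
  have h12 : Real.log (ord m) ≤ Real.log T + 2 := by
    have e1 : Real.log (3 * T) = Real.log 3 + Real.log T := Real.log_mul (by norm_num) (by linarith)
    have e2 : Real.log 3 ≤ 2 := by
      have := Real.log_le_sub_one_of_pos (show (0:ℝ) < 3 by norm_num)
      linarith
    have e3 : Real.log (ord m) ≤ Real.log (3 * T) := Real.log_le_log (by linarith) h11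
    linarith
  have h13 : uf (ord m) - uf (ord n) ≤ (ord m - ord n) * (Real.log T + 2) / (2 * Real.pi) := by
    refine h5.trans ?_
    apply div_le_div_of_nonneg_right _ (by positivity)
    exact mul_le_mul_of_nonneg_left h12 (by linarith)
  have h14 : (ord m - ord n) * 2 / (2 * Real.pi) ≤ δ := by
    have e1 : (ord m - ord n) * 2 / (2 * Real.pi) ≤ 2 * A / Real.log T := by
      rw [div_le_div_iff₀ (by positivity) hL]
      rw [div_le_iff₀ (by positivity)] at h8
      nlinarith
    refine e1.trans ?_
    rw [div_le_iff₀ hL]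
    rw [div_le_iff₀ hδ] at t3
    linarith
  have e5 : (ord m - ord n) * (Real.log T + 2) / (2 * Real.pi) =
      (ord m - ord n) * Real.log T / (2 * Real.pi) + (ord m - ord n) * 2 / (2 * Real.pi) := by ring
  unfold yy
  rw [abs_le]
  constructor <;> linarith

end

end Pool.Agent.V8Lead.OR
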