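import Pool.Agent.V8Lead.OR.SL

/-! Project OR (lead): no linear recurrences between the ordinates. -/

set_option autoImplicit false

namespace Pool.Agent.V8Lead.OR

open Filter Topology MeasureTheory
open SG (NZ ord)
open Pool.Agent.X112.GS (Anti Lln Tight Close inc)

noncomputable section

lemma exists_max (c : ℕ → ℝ) (k : ℕ) (h : ∃ j ≤ k, 1 ≤ |c j|) : ∃ j0 ≤ k, 1 ≤ |c j0| ∧ ∀ j ≤ k, |c j| ≤ |c j0| := by
  obtain ⟨j0, hj0, hmax⟩ := Finset.exists_max_image (Finset.range (k + 1)) (fun j => |c j|) ⟨0, by simp⟩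
  obtain ⟨j1, hj1, h1⟩ := h
  refine ⟨j0, by have := Finset.mem_range.1 hj0; omega, h1.trans (hmax j1 (Finset.mem_range.2 (by omega))), fun j hj =>
    hmax j (Finset.mem_range.2 (by omega))⟩

/-- from a relation between ordinates to a relation between normalized gaps -/
lemma rel_gap {k d B0 n : ℕ} {ε0 K : ℝ} (hε0 : 0 < ε0) (hn : 1 ≤ n) (hK : 0 < K)
    (ho : Real.exp 1 ≤ ord n) (hbig : (k + 1) * (K * (2 * Real.pi * K * (B0 + k + 1))) / (ε0 / 4) ≤ ord n)
    (hgap : ∀ i ≤ B0 + k, |xx (n + i)| ≤ K)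
    (h : ∃ (c : ℕ → ℝ) (P : Polynomial ℝ), (∃ j ≤ k, 1 ≤ |c j|) ∧ P.natDegree ≤ d ∧
      ∀ i < B0 + 1, |∑ j ∈ Finset.range (k + 1), c j * ord (n + i + j) - P.eval (i : ℝ)| <
        ε0 / Real.log (ord n)) :
    ∃ (c : ℕ → ℝ) (P : Polynomial ℝ), (∃ j ≤ k, 1 ≤ |c j|) ∧ P.natDegree ≤ d ∧
      ∀ i < B0, |∑ j ∈ Finset.range (k + 1), c j * xx (n + i + j) - P.eval (i : ℝ)| < ε0 := by
  obtain ⟨c, P, hc, hP, hrel⟩ := h
  obtain ⟨j0, hj0, hM1, hM⟩ := exists_max c k hc
  obtain ⟨M, hMe⟩ : ∃ M : ℝ, M = |c j0| := ⟨_, rfl⟩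
  rw [← hMe] at hM1
  have hM0 : 0 < M := by linarith
  have hpi := Real.pi_gt_three
  have o3 : 1 ≤ ord n := by linarith [Real.add_one_le_exp (1:ℝ)]
  have o4 : 1 ≤ Real.log (ord n) := by
    rw [Real.le_log_iff_exp_le (by linarith)]; exact ho
  obtain ⟨L, hL⟩ : ∃ L : ℝ, L = Real.log (ord n) := ⟨_, rfl⟩
  rw [← hL] at o4 hrel
  have hL0 : 0 < L := by linarith
  refine ⟨fun j => c j / M, Polynomial.C (L / (2 * Real.pi * M)) * (P.comp (Polynomial.X + Polynomial.C 1) - P), ?_, ?_,
    fun i hi => ?_⟩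
  · refine ⟨j0, hj0, ?_⟩
    rw [abs_div, ← hMe, abs_of_pos hM0, div_self hM0.ne']
  · refine (Polynomial.natDegree_C_mul_le _ _).trans ((Polynomial.natDegree_sub_le _ _).trans (max_le ?_ hP))
    refine Polynomial.natDegree_comp_le.trans ?_
    rw [Polynomial.natDegree_X_add_C, mul_one]
    exact hP
  have r1 := hrel i (by omega)
  have r2 := hrel (i + 1) (by omega)
  have e1 : ∀ j, ord (n + (i + 1) + j) = ord (n + i + j + 1) := fun j => by congr 1; ring
  -- the gaps
  have hg : ∀ j ≤ k, 0 ≤ ord (n + i + j + 1) - ord (n + i + j) := fun j _ => by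
    have := SG.ord_mono (show 1 ≤ n + i + j by omega) (show n + i + j ≤ n + i + j + 1 by omega)
    linarith
  have hmono : ∀ m : ℕ, ord n ≤ ord (n + m) := fun m => SG.ord_mono hn (by omega)
  have hgK : ∀ m ≤ B0 + k, ord (n + m + 1) - ord (n + m) ≤ 2 * Real.pi * K := by
    intro m hm
    have h1 := (le_abs_self _).trans (hgap m hm)
    have h2 : xx (n + m) = (ord (n + m + 1) - ord (n + m)) * Real.log (ord (n + m)) / (2 * Real.pi) := rfl
    rw [h2, div_le_iff₀ (by positivity)] at h1
    have h3 : 1 ≤ Real.log (ord (n + m)) := by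
      rw [Real.le_log_iff_exp_le (by linarith [hmono m])]; exact ho.trans (hmono m)
    have h4 : 0 ≤ ord (n + m + 1) - ord (n + m) := by
      have := SG.ord_mono (show 1 ≤ n + m by omega) (show n + m ≤ n + m + 1 by omega)
      linarith
    nlinarith
  have hsum : ∀ m ≤ B0 + k + 1, ord (n + m) - ord n ≤ 2 * Real.pi * K * m := by
    intro m
    induction m with
    | zero => intro _; simp
    | succ m ih =>
      intro hm
      have h1 := ih (by omega)
      have h2 := hgK m (by omega)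
      have h3 : n + (m + 1) = n + m + 1 := by ring
      rw [h3]
      push_cast
      linarith
  -- the difference of the logarithms
  have hlog : ∀ m ≤ B0 + k, Real.log (ord (n + m)) - L ≤ 2 * Real.pi * K * (B0 + k + 1) / ord n := by
    intro m hm
    rw [hL, ← Real.log_div (by linarith [hmono m]) (by linarith)]
    refine (Real.log_le_sub_one_of_pos (by apply div_pos <;> linarith [hmono m])).trans ?_
    have h1 := hsum m (by omega)
    have h2 : ord (n + m) / ord n - 1 = (ord (n + m) - ord n) / ord n := by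
      field_simp
    rw [h2]
    apply div_le_div_of_nonneg_right _ (by linarith)
    refine h1.trans ?_
    apply mul_le_mul_of_nonneg_left _ (by positivity)
    have : (m : ℝ) ≤ B0 + k := by exact_mod_cast hm
    linarith
  have hlog0 : ∀ m : ℕ, 0 ≤ Real.log (ord (n + m)) - L := by
    intro m
    rw [hL, sub_nonneg]
    exact Real.log_le_log (by linarith) (hmono m)
  -- one term
  have hterm : ∀ j ∈ Finset.range (k + 1), |c j / M * xx (n + i + j) -
      L / (2 * Real.pi) * (c j / M * (ord (n + i + j + 1) - ord (n + i + j)))| ≤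
      K * (2 * Real.pi * K * (B0 + k + 1)) / ord n := by
    intro j hj
    rw [Finset.mem_range] at hj
    have h2 : xx (n + i + j) = (ord (n + i + j + 1) - ord (n + i + j)) * Real.log (ord (n + i + j)) /
      (2 * Real.pi) := rfl
    have e : c j / M * xx (n + i + j) -
      L / (2 * Real.pi) * (c j / M * (ord (n + i + j + 1) - ord (n + i + j))) =
      c j / M * ((ord (n + i + j + 1) - ord (n + i + j)) / (2 * Real.pi) * (Real.log (ord (n + (i + j))) - L)) := by
      rw [h2, ← add_assoc]; ring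
    rw [e, abs_mul, abs_div, abs_of_pos hM0]
    have h3 : |c j| / M ≤ 1 := by
      rw [div_le_one hM0, hMe]; exact hM j (by omega)
    have h4 := hlog (i + j) (by omega)
    have h5 := hlog0 (i + j)
    have h6 := hgK (i + j) (by omega)
    have h7 := hg j (by omega)
    rw [← add_assoc] at h6
    rw [abs_of_nonneg (mul_nonneg (div_nonneg h7 (by positivity)) h5)]
    have h8 : (ord (n + i + j + 1) - ord (n + i + j)) / (2 * Real.pi) ≤ K := by
      rw [div_le_iff₀ (by positivity)]; linarith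
    calc |c j| / M * ((ord (n + i + j + 1) - ord (n + i + j)) / (2 * Real.pi) * (Real.log (ord (n + (i + j))) - L))
        ≤ 1 * (K * (2 * Real.pi * K * (B0 + k + 1) / ord n)) := by
          apply mul_le_mul h3 _ (mul_nonneg (div_nonneg h7 (by positivity)) h5) zero_le_one
          exact mul_le_mul h8 h4 h5 hK.le
      _ = _ := by ring
  have hA : |∑ j ∈ Finset.range (k + 1), c j / M * xx (n + i + j) -
      L / (2 * Real.pi) * ∑ j ∈ Finset.range (k + 1), (c j / M * (ord (n + i + j + 1) - ord (n + i + j)))| ≤ ε0 / 4 := by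
    rw [Finset.mul_sum, ← Finset.sum_sub_distrib]
    refine (Finset.abs_sum_le_sum_abs _ _).trans ((Finset.sum_le_sum hterm).trans ?_)
    rw [Finset.sum_const, Finset.card_range, nsmul_eq_mul]
    rw [div_le_iff₀ (by positivity)] at hbig
    push_cast
    rw [mul_div_assoc', div_le_iff₀ (by linarith)]
    linarith
  -- the difference of two relations
  have hB : |L / (2 * Real.pi) * (∑ j ∈ Finset.range (k + 1), (c j / M * (ord (n + i + j + 1) - ord (n + i + j)))) -
      L / (2 * Real.pi * M) * (P.eval ((i : ℝ) + 1) - P.eval (i : ℝ))| ≤ ε0 / 3 := by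
    have e : L / (2 * Real.pi) * (∑ j ∈ Finset.range (k + 1), (c j / M * (ord (n + i + j + 1) - ord (n + i + j)))) -
      L / (2 * Real.pi * M) * (P.eval ((i : ℝ) + 1) - P.eval (i : ℝ)) =
      L / (2 * Real.pi * M) * ((∑ j ∈ Finset.range (k + 1), c j * ord (n + (i + 1) + j) - P.eval (((i + 1 : ℕ) : ℝ))) -
        (∑ j ∈ Finset.range (k + 1), c j * ord (n + i + j) - P.eval (i : ℝ))) := by
      have e2 : ∑ j ∈ Finset.range (k + 1), (c j / M * (ord (n + i + j + 1) - ord (n + i + j))) =
          (∑ j ∈ Finset.range (k + 1), c j * ord (n + (i + 1) + j) - ∑ j ∈ Finset.range (k + 1), c j * ord (n + i + j)) / M := by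
        rw [← Finset.sum_sub_distrib, Finset.sum_div]
        refine Finset.sum_congr rfl fun j _ => ?_
        rw [e1]
        ring
      rw [e2]
      push_cast
      field_simp
      ring
    rw [e, abs_mul, abs_of_pos (by positivity)]
    have h1 : |(∑ j ∈ Finset.range (k + 1), c j * ord (n + (i + 1) + j) - P.eval (((i + 1 : ℕ) : ℝ))) -
        (∑ j ∈ Finset.range (k + 1), c j * ord (n + i + j) - P.eval (i : ℝ))| ≤ 2 * (ε0 / L) := by
      refine (abs_sub _ _).trans ?_
      linarith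
    calc L / (2 * Real.pi * M) * _ ≤ L / (2 * Real.pi * M) * (2 * (ε0 / L)) :=
          mul_le_mul_of_nonneg_left h1 (by positivity)
      _ = ε0 / (Real.pi * M) := by field_simp
      _ ≤ ε0 / 3 := by
          apply div_le_div_of_nonneg_left hε0.le (by norm_num)
          nlinarith
  have e3 : (Polynomial.C (L / (2 * Real.pi * M)) * (P.comp (Polynomial.X + Polynomial.C 1) - P)).eval (i : ℝ) =
      L / (2 * Real.pi * M) * (P.eval ((i : ℝ) + 1) - P.eval (i : ℝ)) := by
    simp [Polynomial.eval_comp]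
  rw [e3]
  have hA' := abs_le.1 hA
  have hB' := abs_le.1 hB
  rw [abs_lt]
  constructor <;> linarith [hA'.1, hA'.2, hB'.1, hB'.2]

theorem tight_xx (hT : S_ST) (hC : S_SC) : Tight xx := by
  classical
  intro θ hθ
  obtain ⟨K, hK, h⟩ := hT (θ / 2) (by positivity)
  refine ⟨K + 1, by positivity, ?_⟩
  filter_upwards [h, hC 1 (θ / 2) one_pos (by positivity)] with N h1 h2
  have h3 : (Finset.Icc 1 N).filter (fun n => K + 1 < |xx n|) ⊆
      (Finset.Icc 1 N).filter (fun n => K < |inc yy n|) ∪ (Finset.Icc 1 N).filter (fun n => 1 < |xx n - inc yy n|) := by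
    intro n hn
    rw [Finset.mem_filter] at hn
    rw [Finset.mem_union, Finset.mem_filter, Finset.mem_filter]
    by_cases c : K < |inc yy n|
    · exact Or.inl ⟨hn.1, c⟩
    · right
      refine ⟨hn.1, ?_⟩
      push Not at c
      have := abs_sub_abs_le_abs_sub (xx n) (inc yy n)
      linarith [hn.2]
  have h4 : (((Finset.Icc 1 N).filter (fun n => K + 1 < |xx n|)).card : ℝ) ≤
      ((Finset.Icc 1 N).filter (fun n => K < |inc yy n|)).card +
      ((Finset.Icc 1 N).filter (fun n => 1 < |xx n - inc yy n|)).card := by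
    exact_mod_cast (Finset.card_le_card h3).trans (Finset.card_union_le _ _)
  have h5 : (((Finset.Icc 1 N).filter (fun n => K < |inc yy n|)).card : ℝ) ≤ θ / 2 * N := by
    refine le_trans (le_of_eq ?_) h1
    congr
  have h6 : (((Finset.Icc 1 N).filter (fun n => 1 < |xx n - inc yy n|)).card : ℝ) ≤ θ / 2 * N := by
    refine le_trans (le_of_eq ?_) h2
    congr
  refine le_trans (le_of_eq ?_) (h4.trans (by linarith))
  congr

lemma card_or3 {P Q R : ℕ → Prop} {dP : DecidablePred P} {dQ : DecidablePred Q} {dR : DecidablePred R} (n0 N : ℕ)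
    (h : ∀ n, n0 ≤ n → R n → P n ∨ Q n) {x y : ℝ} (hP : ((@Finset.filter ℕ P dP (Finset.Icc 1 N)).card : ℝ) ≤ x)
    (hQ : ((@Finset.filter ℕ Q dQ (Finset.Icc 1 N)).card : ℝ) ≤ y) :
    ((@Finset.filter ℕ R dR (Finset.Icc 1 N)).card : ℝ) ≤ n0 + (x + y) := by
  have h1 : (Finset.Icc 1 N).filter R ⊆ Finset.range n0 ∪ ((Finset.Icc 1 N).filter P ∪ (Finset.Icc 1 N).filter Q) := by
    intro n hn
    rw [Finset.mem_filter] at hn
    rw [Finset.mem_union, Finset.mem_union, Finset.mem_filter, Finset.mem_filter, Finset.mem_range]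
    rcases lt_or_ge n n0 with h3 | h3
    · exact Or.inl h3
    · rcases h n h3 hn.2 with h2 | h2
      · exact Or.inr (Or.inl ⟨hn.1, h2⟩)
      · exact Or.inr (Or.inr ⟨hn.1, h2⟩)
  have h2 : ((Finset.Icc 1 N).filter R).card ≤ n0 + (((Finset.Icc 1 N).filter P).card +
      ((Finset.Icc 1 N).filter Q).card) := by
    refine (Finset.card_le_card h1).trans ((Finset.card_union_le _ _).trans ?_)
    rw [Finset.card_range]
    exact Nat.add_le_add_left (Finset.card_union_le _ _) _
  have h3 : (((Finset.Icc 1 N).filter R).card : ℝ) ≤ n0 + (((Finset.Icc 1 N).filter P).card +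
      ((Finset.Icc 1 N).filter Q).card) := by exact_mod_cast h2
  linarith

open Classical in
/-- **no linear recurrences with polynomial right-hand side on almost all blocks** -/
theorem norec (hA : S_SA) (hL : S_SL) (hT : S_ST) (hC : S_SC) (k d : ℕ) (θ : ℝ) (hθ : 0 < θ) :
    ∃ (B : ℕ) (ε : ℝ), 0 < ε ∧ ∀ᶠ N : ℕ in atTop,
    (((Finset.Icc 1 N).filter (fun n => ∃ (c : ℕ → ℝ) (P : Polynomial ℝ), (∃ j ≤ k, 1 ≤ |c j|) ∧ P.natDegree ≤ d ∧
      ∀ i < B, |∑ j ∈ Finset.range (k + 1), c j * ord (n + i + j) - P.eval (i : ℝ)| <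
        ε / Real.log (ord n))).card : ℝ) ≤ θ * N := by
  obtain ⟨B0, ε, hε, h⟩ := Pool.Agent.X112.GS.no_rec' hA hL hT hC k d (θ / 4) (by positivity)
  obtain ⟨K, hK, hw⟩ := Pool.Agent.X112.GS.tight_window (tight_xx hT hC) (B0 + k + 1) (θ / 4) (by positivity)
  obtain ⟨n0, hn0, ho⟩ := ord_ge_ev (max (Real.exp 1) ((k + 1) * (K * (2 * Real.pi * K * (B0 + k + 1))) / (ε / 4)))
  refine ⟨B0 + 1, ε, hε, ?_⟩
  have hw' := hw (Finset.range (B0 + k + 1)) (by rw [Finset.card_range])
  filter_upwards [h, hw', card_init n0 (θ / 2) (by positivity)] with N h1 h2 h3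
  refine (card_or3 n0 N ?_ h2 h1).trans ?_
  · intro n hn hrel
    by_cases c : ∃ f ∈ Finset.range (B0 + k + 1), K < |xx (n + f)|
    · exact Or.inl c
    · right
      push Not at c
      exact rel_gap hε (by omega) hK ((le_max_left _ _).trans (ho n hn)) ((le_max_right _ _).trans (ho n hn))
        (fun i hi => c i (Finset.mem_range.2 (by omega))) hrel
  · linarith

end

end Pool.Agent.V8Lead.OR
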