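import Pool.Agent.V8Lead.OR.Stm
import Pool.Agent.Y745.SW.Blk1

/-! ONE: the window function against the indicator function, one zero. -/

set_option autoImplicit false

namespace Pool.Agent.V8Lead.OR

open Filter Topology MeasureTheory Complex H370
open Pool.Agent.Y745.SW

noncomputable section

/-- the dominating kernel -/
def kk (N x : ℝ) : ℝ := (1 + (x - N) ^ 2)⁻¹ + (1 + (x + N) ^ 2)⁻¹

lemma kk_nonneg (N x : ℝ) : 0 ≤ kk N x := by unfold kk; positivity

lemma kk_ge (N x : ℝ) (_hN : 0 ≤ N) : (1 + (|x| - N) ^ 2)⁻¹ ≤ kk N x := by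
  unfold kk
  rcases le_total 0 x with h | h
  · rw [abs_of_nonneg h]
    have : 0 ≤ (1 + (x + N) ^ 2)⁻¹ := by positivity
    linarith
  · rw [abs_of_nonpos h]
    have e : (-x - N) ^ 2 = (x + N) ^ 2 := by ring
    rw [e]
    have : 0 ≤ (1 + (x - N) ^ 2)⁻¹ := by positivity
    linarith

lemma kk_int (N a x0 : ℝ) (ha : 0 < a) : Integrable (fun t : ℝ => kk N (a * (x0 - t))) ∧
    ∫ t : ℝ, kk N (a * (x0 - t)) = 2 * Real.pi / a := by
  have h0 : Integrable (fun x : ℝ => (1 + x ^ 2)⁻¹) := integrable_inv_one_add_sq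
  have h1 : ∀ M : ℝ, Integrable (fun t : ℝ => (1 + (a * (x0 - t) + M) ^ 2)⁻¹) ∧
      ∫ t : ℝ, (1 + (a * (x0 - t) + M) ^ 2)⁻¹ = Real.pi / a := by
    intro M
    have g1 : Integrable (fun x : ℝ => (1 + (x + M) ^ 2)⁻¹) := h0.comp_add_right M
    have g2 : Integrable (fun x : ℝ => (1 + (a * x + M) ^ 2)⁻¹) := g1.comp_mul_left' ha.ne'
    have g3 : Integrable (fun t : ℝ => (1 + (a * (x0 - t) + M) ^ 2)⁻¹) := g2.comp_sub_left x0
    refine ⟨g3, ?_⟩
    have i1 : ∫ t : ℝ, (1 + (a * (x0 - t) + M) ^ 2)⁻¹ = ∫ x : ℝ, (1 + (a * x + M) ^ 2)⁻¹ :=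
      integral_sub_left_eq_self (fun x : ℝ => (1 + (a * x + M) ^ 2)⁻¹) volume x0
    have i2 : ∫ x : ℝ, (1 + (a * x + M) ^ 2)⁻¹ = |a⁻¹| • ∫ x : ℝ, (1 + (x + M) ^ 2)⁻¹ :=
      Measure.integral_comp_mul_left (fun x : ℝ => (1 + (x + M) ^ 2)⁻¹) a
    have i3 : ∫ x : ℝ, (1 + (x + M) ^ 2)⁻¹ = ∫ x : ℝ, (1 + x ^ 2)⁻¹ :=
      integral_add_right_eq_self (fun x : ℝ => (1 + x ^ 2)⁻¹) M
    rw [i1, i2, i3, integral_univ_inv_one_add_sq, abs_of_pos (inv_pos.2 ha), smul_eq_mul]
    field_simp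
  obtain ⟨a1, a2⟩ := h1 (-N)
  obtain ⟨b1, b2⟩ := h1 N
  have e : (fun t : ℝ => kk N (a * (x0 - t))) = fun t : ℝ =>
      (1 + (a * (x0 - t) + -N) ^ 2)⁻¹ + (1 + (a * (x0 - t) + N) ^ 2)⁻¹ := by
    funext t
    unfold kk
    congr 3
  rw [e]
  refine ⟨a1.add b1, ?_⟩
  rw [integral_add a1 b1, a2, b2]
  ring

/-- the pointwise bound -/
lemma one_point {C N a : ℝ} {B : ℝ → ℝ} (hC : 1 ≤ C) (hN : 1 ≤ N) (ha : N ≤ a) (hB : Wf 2 C N B)
    (z : ℂ) (hz : |z.im| ≤ 1 / 2) (t : ℝ) :
    ‖vt B a t z - (if |z.re - t| ≤ N / a then 1 else 0)‖ ≤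
      2 * C * Real.exp (a * |z.im|) * kk N (a * (z.re - t)) +
        (if |z.re - t| ≤ N / a then N ^ 2 / a ^ 2 + z.im ^ 2 else 0) := by
  have ha0 : 0 < a := by linarith
  obtain ⟨w, hw⟩ : ∃ w : ℂ, w = a * (z - t) := ⟨_, rfl⟩
  obtain ⟨G, hG⟩ : ∃ G : ℂ, G = cexp (-(z - t) ^ 2 / 2) := ⟨_, rfl⟩
  have hwre : w.re = a * (z.re - t) := by rw [hw]; simp
  have hwim : w.im = a * z.im := by rw [hw]; simp
  have hwim' : |w.im| = a * |z.im| := by rw [hwim, abs_mul, abs_of_pos ha0]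
  have hvt : vt B a t z = VF B w * G := by rw [hw, hG]; rfl
  have hGn : ‖G‖ ≤ 2 := by
    rw [hG, Complex.norm_exp]
    have e1 : (-(z - t) ^ 2 / 2 : ℂ).re = (z.im ^ 2 - (z.re - t) ^ 2) / 2 := by
      have : (-(z - t) ^ 2 / 2 : ℂ) = (-(1 / 2 : ℝ) : ℝ) * (z - t) ^ 2 := by push_cast; ring
      rw [this, Complex.re_ofReal_mul, sq, Complex.mul_re]
      simp only [Complex.sub_re, Complex.sub_im, Complex.ofReal_re, Complex.ofReal_im, sub_zero]
      ring
    rw [e1]
    have h1 : z.im ^ 2 ≤ 1 / 4 := by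
      have := sq_le_sq' (by linarith [neg_abs_le z.im, abs_nonneg z.im] : -(1/2:ℝ) ≤ z.im) ((le_abs_self _).trans hz)
      linarith
    have h2 : (z.im ^ 2 - (z.re - t) ^ 2) / 2 ≤ 1 / 8 := by nlinarith [sq_nonneg (z.re - t)]
    calc Real.exp _ ≤ Real.exp (1 / 8) := Real.exp_le_exp.2 h2
      _ ≤ 2 := by
        have := Real.exp_bound_div_one_sub_of_interval (x := 1 / 8) (by norm_num) (by norm_num)
        linarith
  have hker : (1 + (|w.re| - N) ^ 2)⁻¹ ≤ kk N (a * (z.re - t)) := by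
    rw [← hwre]; exact kk_ge N w.re (by linarith)
  have hE := Real.exp_pos (a * |z.im|)
  have habs : |w.re| = a * |z.re - t| := by rw [hwre, abs_mul, abs_of_pos ha0]
  split_ifs with h
  · have h' : |w.re| ≤ N := by
      rw [habs]
      rw [le_div_iff₀ ha0] at h
      linarith
    have h1 := hB.inner w h'
    rw [hwim'] at h1
    have h2 : (1 + (N - |w.re|)) ^ 2 ≥ 1 + (|w.re| - N) ^ 2 := by nlinarith
    have h3 : ‖VF B w - 1‖ ≤ C * Real.exp (a * |z.im|) * kk N (a * (z.re - t)) := by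
      refine h1.trans ?_
      rw [div_eq_mul_inv]
      refine mul_le_mul_of_nonneg_left ?_ (by positivity)
      refine le_trans ?_ hker
      exact inv_anti₀ (by positivity) h2
    have h4 : ‖G - 1‖ ≤ N ^ 2 / a ^ 2 + z.im ^ 2 := by
      rw [hG]
      have hn : ‖-(z - t) ^ 2 / 2‖ ≤ (N ^ 2 / a ^ 2 + z.im ^ 2) / 2 := by
        rw [norm_div, norm_neg, norm_pow]
        have e2 : ‖z - (t : ℂ)‖ ^ 2 = (z.re - t) ^ 2 + z.im ^ 2 := by
          rw [← Complex.normSq_eq_norm_sq, Complex.normSq_apply]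
          simp only [Complex.sub_re, Complex.sub_im, Complex.ofReal_re, Complex.ofReal_im, sub_zero]
          ring
        rw [e2]
        have e3 : (z.re - t) ^ 2 ≤ N ^ 2 / a ^ 2 := by
          rw [← sq_abs, ← div_pow]
          exact pow_le_pow_left₀ (abs_nonneg _) h 2
        have : ‖(2 : ℂ)‖ = 2 := by norm_num
        rw [this]
        linarith
      have h5 : N ^ 2 / a ^ 2 ≤ 1 := by
        rw [div_le_one (by positivity)]
        exact pow_le_pow_left₀ (by linarith) ha 2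
      have h6 : z.im ^ 2 ≤ 1 / 4 := by
        have := sq_le_sq' (by linarith [neg_abs_le z.im, abs_nonneg z.im] : -(1/2:ℝ) ≤ z.im) ((le_abs_self _).trans hz)
        linarith
      have h7 := Complex.norm_exp_sub_one_le (x := -(z - t) ^ 2 / 2) (by linarith)
      linarith
    calc ‖vt B a t z - 1‖ = ‖(VF B w - 1) * G + (G - 1)‖ := by rw [hvt]; congr 1; ring
      _ ≤ ‖VF B w - 1‖ * ‖G‖ + ‖G - 1‖ := by
        refine (norm_add_le _ _).trans ?_
        rw [norm_mul]
      _ ≤ (C * Real.exp (a * |z.im|) * kk N (a * (z.re - t))) * 2 + (N ^ 2 / a ^ 2 + z.im ^ 2) := by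
        refine add_le_add (mul_le_mul h3 hGn (norm_nonneg _) ?_) h4
        have := kk_nonneg N (a * (z.re - t))
        positivity
      _ = _ := by ring
  · have h' : N ≤ |w.re| := by
      rw [habs]
      rw [not_le, div_lt_iff₀ ha0] at h
      linarith
    have h1 := hB.outer w h'
    rw [hwim'] at h1
    have h2 : (1 + (|w.re| - N)) ^ 2 ≥ 1 + (|w.re| - N) ^ 2 := by nlinarith
    have h3 : ‖VF B w‖ ≤ C * Real.exp (a * |z.im|) * kk N (a * (z.re - t)) := by
      refine h1.trans ?_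
      rw [div_eq_mul_inv]
      refine mul_le_mul_of_nonneg_left ?_ (by positivity)
      refine le_trans ?_ hker
      exact inv_anti₀ (by positivity) h2
    rw [sub_zero, add_zero, hvt, norm_mul]
    calc ‖VF B w‖ * ‖G‖ ≤ (C * Real.exp (a * |z.im|) * kk N (a * (z.re - t))) * 2 := by
          refine mul_le_mul h3 hGn (norm_nonneg _) ?_
          have := kk_nonneg N (a * (z.re - t))
          positivity
      _ = _ := by ring

theorem t_ONE : S_ONE := by
  intro C hC
  refine ⟨4 * Real.pi * C + 6, by have := Real.pi_pos; positivity, fun N hN => ?_⟩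
  filter_upwards [eventually_ge_atTop N, eventually_ge_atTop (N ^ 3), eventually_ge_atTop 1] with a ha ha3 ha1
  intro B hB z hz
  have ha0 : 0 < a := by linarith
  obtain ⟨hk1, hk2⟩ := kk_int N a z.re ha0
  have hind : Integrable (fun t : ℝ => if |z.re - t| ≤ N / a then N ^ 2 / a ^ 2 + z.im ^ 2 else 0) ∧
      ∫ t : ℝ, (if |z.re - t| ≤ N / a then N ^ 2 / a ^ 2 + z.im ^ 2 else 0) =
        2 * (N / a) * (N ^ 2 / a ^ 2 + z.im ^ 2) := by
    have e : (fun t : ℝ => if |z.re - t| ≤ N / a then N ^ 2 / a ^ 2 + z.im ^ 2 else 0) =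
        Set.indicator (Set.Icc (z.re - N / a) (z.re + N / a)) (fun _ => N ^ 2 / a ^ 2 + z.im ^ 2) := by
      funext t
      rw [Set.indicator_apply]
      congr 1
      rw [abs_le, Set.mem_Icc]
      apply propext
      constructor
      · rintro ⟨h1, h2⟩; constructor <;> linarith
      · rintro ⟨h1, h2⟩; constructor <;> linarith
    rw [e]
    constructor
    · rw [integrable_indicator_iff measurableSet_Icc]
      exact integrableOn_const (by simp)
    · rw [integral_indicator measurableSet_Icc, setIntegral_const, Measure.real, Real.volume_Icc,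
        ENNReal.toReal_ofReal (by have : 0 < N / a := by positivity
                                  linarith), smul_eq_mul]
      ring
  have hg : Integrable (fun t : ℝ => 2 * C * Real.exp (a * |z.im|) * kk N (a * (z.re - t)) +
        (if |z.re - t| ≤ N / a then N ^ 2 / a ^ 2 + z.im ^ 2 else 0)) := (hk1.const_mul _).add hind.1
  have hm : AEStronglyMeasurable (fun t : ℝ => ‖vt B a t z - (if |z.re - t| ≤ N / a then 1 else 0)‖) volume := by
    apply AEStronglyMeasurable.norm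
    apply AEStronglyMeasurable.sub
    · exact (vt_cont hB.cont a z).aestronglyMeasurable
    · apply Measurable.aestronglyMeasurable
      apply Measurable.ite
      · exact measurableSet_le (by fun_prop) measurable_const
      · exact measurable_const
      · exact measurable_const
  have hint := hg.mono' hm (Eventually.of_forall fun t => by
    rw [norm_norm]
    exact one_point hC hN ha hB z hz t)
  refine ⟨hint, ?_⟩
  have h1 : ∫ t : ℝ, ‖vt B a t z - (if |z.re - t| ≤ N / a then 1 else 0)‖ ≤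
      ∫ t : ℝ, (2 * C * Real.exp (a * |z.im|) * kk N (a * (z.re - t)) +
        (if |z.re - t| ≤ N / a then N ^ 2 / a ^ 2 + z.im ^ 2 else 0)) :=
    integral_mono hint hg fun t => one_point hC hN ha hB z hz t
  refine h1.trans ?_
  rw [integral_add (hk1.const_mul _) hind.1, integral_const_mul, hk2, hind.2]
  obtain ⟨y, hy⟩ : ∃ y : ℝ, y = a * |z.im| := ⟨_, rfl⟩
  have hy0 : 0 ≤ y := by rw [hy]; positivity
  have hexp : Real.exp (2 * a * |z.im|) = Real.exp y * Real.exp y := by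
    rw [← Real.exp_add, hy]; congr 1; ring
  have hE1 : 1 ≤ Real.exp y := Real.one_le_exp hy0
  have hE2 : y ^ 2 / 2 ≤ Real.exp y := by
    have := Real.quadratic_le_exp_of_nonneg hy0
    linarith
  rw [hexp, ← hy]
  have hzim : z.im ^ 2 = y ^ 2 / a ^ 2 := by
    rw [hy, mul_pow, sq_abs]; field_simp
  rw [hzim]
  have e1 : 2 * (N / a) * (N ^ 2 / a ^ 2 + y ^ 2 / a ^ 2) = (2 * (N ^ 3 / a ^ 2) + 2 * (N / a ^ 2) * y ^ 2) / a := by
    field_simp
  rw [e1]
  have h2 : N ^ 3 / a ^ 2 ≤ 1 := by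
    rw [div_le_one (by positivity)]
    nlinarith
  have h3 : N / a ^ 2 ≤ 1 := by
    rw [div_le_one (by positivity)]
    nlinarith
  have h4 : 2 * (N / a ^ 2) * y ^ 2 ≤ 4 * Real.exp y := by
    have h5 : 0 ≤ N / a ^ 2 := by positivity
    nlinarith [sq_nonneg y]
  have hpi := Real.pi_pos
  calc 2 * C * Real.exp y * (2 * Real.pi / a) + (2 * (N ^ 3 / a ^ 2) + 2 * (N / a ^ 2) * y ^ 2) / a
      = (4 * Real.pi * C * Real.exp y + (2 * (N ^ 3 / a ^ 2) + 2 * (N / a ^ 2) * y ^ 2)) / a := by ring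
    _ ≤ ((4 * Real.pi * C + 6) * (Real.exp y * Real.exp y)) / a := by
        refine div_le_div_of_nonneg_right ?_ ha0.le
        have h6 : Real.exp y ≤ Real.exp y * Real.exp y := by nlinarith
        have h7 : 4 * Real.pi * C * Real.exp y ≤ 4 * Real.pi * C * (Real.exp y * Real.exp y) :=
          mul_le_mul_of_nonneg_left h6 (by positivity)
        nlinarith
    _ = _ := by ring

end

end Pool.Agent.V8Lead.OR
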