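import Pool.Agent.V8Lead.OR.SA

/-! Project OR (lead): the law of large numbers for the sequence of the ordinates, tightness of the gaps. -/

set_option autoImplicit false

namespace Pool.Agent.V8Lead.OR

open Filter Topology MeasureTheory
open SG (NZ ord)
open Pool.Agent.X112.GS (Anti Lln Tight Close inc)

noncomputable section

/-- the law of large numbers at shifted points -/
lemma WL_shift (hWL : S_WL) (κ ε : ℝ) (hκ : 0 < κ) (hε : 0 < ε) : ∃ s0 : ℝ, 1 ≤ s0 ∧ ∀ s : ℝ, s0 ≤ s → ∀ M : ℝ,
    ∀ᶠ T : ℝ in atTop,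
    volume.real {t : ℝ | T ≤ t ∧ t ≤ 2 * T ∧ κ * s ≤ |Wc T s (t + M * sp T) - s|} ≤ ε * T := by
  obtain ⟨s0, hs0, h⟩ := hWL κ (ε / 2) hκ (by positivity)
  refine ⟨s0, hs0, fun s hs M => ?_⟩
  filter_upwards [h s hs, sp_lim |M| 1 one_pos, eventually_gt_atTop 1, eventually_ge_atTop (4 / ε)] with T h1 h2 h3 h4
  refine (shift_meas (fun t => κ * s ≤ |Wc T s t - s|) T (M * sp T)).trans ?_
  have h5 : |M * sp T| ≤ 1 := by
    rw [abs_mul, abs_of_pos (sp_pos h3)]
    exact h2
  rw [div_le_iff₀ hε] at h4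
  linarith

theorem t_SL (hWL : S_WL) (hUI : S_UI) (hDY : S_DY) : S_SL := by
  intro κ θ hκ hθ
  obtain ⟨K, hK, h⟩ := transfer hUI hDY θ hθ
  obtain ⟨ε, hε, h⟩ := h K le_rfl
  obtain ⟨q, hq⟩ : ∃ q : ℝ, q = min κ (1 / 2) := ⟨_, rfl⟩
  have hq0 : 0 < q := by rw [hq]; exact lt_min hκ (by norm_num)
  have hqκ : q ≤ κ := by rw [hq]; exact min_le_left _ _
  have hq2 : q ≤ 1 / 2 := by rw [hq]; exact min_le_right _ _
  obtain ⟨s0, hs0, hW⟩ := WL_shift hWL (q / 16) (ε / 4) (by positivity) (by positivity)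
  filter_upwards [eventually_ge_atTop ⌈2 * s0 + 16 * K / q⌉₊] with s hs
  have hs1 : 2 * s0 + 16 * K / q ≤ s := (Nat.le_ceil _).trans (by exact_mod_cast hs)
  have hKq : 0 < 16 * K / q := by positivity
  have hss0 : 2 * s0 ≤ s := by linarith
  have hsK : 16 * K ≤ q * s := by
    have : 16 * K / q ≤ s := by linarith
    rw [div_le_iff₀ hq0] at this
    linarith
  have hs0' : (0:ℝ) < s := by linarith
  have hqs : 0 < q * s := mul_pos hq0 hs0'
  have hqs2 : q * s ≤ s / 2 := by
    have := mul_le_mul_of_nonneg_right hq2 hs0'.le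
    linarith
  obtain ⟨s1, hs1'⟩ : ∃ s1 : ℝ, s1 = (1 + q / 8) * s := ⟨_, rfl⟩
  obtain ⟨s2, hs2'⟩ : ∃ s2 : ℝ, s2 = (1 - q / 8) * s := ⟨_, rfl⟩
  have hs1e : s1 = s + q * s / 8 := by rw [hs1']; ring
  have hs2e : s2 = s - q * s / 8 := by rw [hs2']; ring
  have h1 := h Unit (fun _ n => κ * s ≤ |yy (n + s) - yy n - s|) (by
    filter_upwards [hW s1 (by linarith) (q * s / 8), hW s2 (by linarith) (-(q * s / 8)),
      t_LOC (2 * s) (q * s / 4) (by positivity) (by positivity), eventually_gt_atTop 1,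
      sp_lim K 1 one_pos] with T t1 t2 t4 t5 t6 _
    have hsp := sp_pos t5
    refine ⟨{t : ℝ | T ≤ t ∧ t ≤ 2 * T ∧ q / 16 * s1 ≤ |Wc T s1 (t + q * s / 8 * sp T) - s1|} ∪
      {t : ℝ | T ≤ t ∧ t ≤ 2 * T ∧ q / 16 * s2 ≤ |Wc T s2 (t + -(q * s / 8) * sp T) - s2|}, ?_, ?_, ?_⟩
    · rintro t (⟨a, b, _⟩ | ⟨a, b, _⟩) <;> exact ⟨a, b⟩
    · refine (measureReal_union_le _ _).trans ?_
      have : 0 < ε * T := by positivity
      linarith
    · intro n hn n1 n2 hbad t ht
      rw [K_sp] at ht
      have a1 : T ≤ t := by linarith [ht.1]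
      have a2 : t ≤ 2 * T := by linarith [ht.2]
      have b4 : (ord (n + s) - ord n) * Real.log T / (2 * Real.pi) = (ord (n + s) - ord n) / sp T := by
        unfold sp
        have := Real.log_pos t5
        have := Real.pi_pos
        field_simp
      have b2 := t4 n (n + s) hn (by omega) (by linarith) (by linarith)
      rw [b4] at b2
      have eΔ : ord (n + s) - ord n = (ord (n + s) - ord n) / sp T * sp T := by field_simp
      have hKs : K * sp T ≤ q * s / 16 * sp T := mul_le_mul_of_nonneg_right (by linarith) hsp.le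
      have hp1 : 0 < q * s * sp T := mul_pos hqs hsp
      have hbad' : q * s ≤ |yy (n + s) - yy n - s| :=
        (mul_le_mul_of_nonneg_right hqκ hs0'.le).trans hbad
      rcases le_abs.1 hbad' with hb | hb
      · -- a large difference
        left
        refine ⟨a1, a2, ?_⟩
        have hΔ : s + q * s / 2 ≤ (ord (n + s) - ord n) / sp T := by
          by_contra hcon
          push Not at hcon
          have b3 := abs_le.1 (b2 (Or.inr (by linarith)))
          linarith [b3.1, b3.2]
        have hΔ' : (s + q * s / 2) * sp T ≤ ord (n + s) - ord n := by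
          rw [eΔ]; exact mul_le_mul_of_nonneg_right hΔ hsp.le
        have c1 : ord n ≤ t + q * s / 8 * sp T := by linarith [ht.1]
        have c2 : t + q * s / 8 * sp T + s1 * sp T < ord (n + s) := by
          rw [hs1e]
          linarith [ht.2]
        have c3 : (n : ℝ) ≤ NZ (t + q * s / 8 * sp T) := by
          exact_mod_cast (SG.ord_le_iff hn _).1 c1
        have c4 : (NZ (t + q * s / 8 * sp T + s1 * sp T) : ℝ) ≤ n + s := by
          have : ¬ n + s ≤ NZ (t + q * s / 8 * sp T + s1 * sp T) := by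
            rw [← SG.ord_le_iff (by omega)]
            exact not_le.2 c2
          exact_mod_cast (by omega : NZ (t + q * s / 8 * sp T + s1 * sp T) ≤ n + s)
        rw [Wc_sp]
        refine le_trans ?_ (neg_le_abs _)
        rw [hs1e] at c4 ⊢
        have : q * (q * s) ≤ 1 / 2 * (q * s) := mul_le_mul_of_nonneg_right hq2 hqs.le
        linarith
      · -- a small difference
        right
        refine ⟨a1, a2, ?_⟩
        have b3 := abs_le.1 (b2 (Or.inl (by linarith)))
        have hΔ : (ord (n + s) - ord n) / sp T ≤ s - q * s / 2 := by linarith [b3.1, b3.2]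
        have hΔ' : ord (n + s) - ord n ≤ (s - q * s / 2) * sp T := by
          rw [eΔ]; exact mul_le_mul_of_nonneg_right hΔ hsp.le
        have c1 : t + -(q * s / 8) * sp T < ord n := by linarith [ht.2]
        have c2 : ord (n + s) ≤ t + -(q * s / 8) * sp T + s2 * sp T := by
          rw [hs2e]
          linarith [ht.1]
        have c3 : (n : ℝ) + s ≤ NZ (t + -(q * s / 8) * sp T + s2 * sp T) := by
          exact_mod_cast (SG.ord_le_iff (by omega) _).1 c2
        have c4 : (NZ (t + -(q * s / 8) * sp T) : ℝ) ≤ n := by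
          have : ¬ n ≤ NZ (t + -(q * s / 8) * sp T) := by
            rw [← SG.ord_le_iff hn]
            exact not_le.2 c1
          exact_mod_cast (by omega : NZ (t + -(q * s / 8) * sp T) ≤ n)
        rw [Wc_sp]
        refine le_trans ?_ (le_abs_self _)
        rw [hs2e] at c3 ⊢
        have : 0 ≤ q * (q * s) := by positivity
        linarith)
  filter_upwards [h1] with N hN
  refine le_trans (le_of_eq ?_) (hN ())
  congr

lemma ord_ge_ev (A : ℝ) : ∃ n0 : ℕ, 1 ≤ n0 ∧ ∀ n : ℕ, n0 ≤ n → A ≤ ord n := by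
  obtain ⟨n0, h⟩ := eventually_atTop.1 (SG.ord_tendsto.eventually_ge_atTop A)
  exact ⟨max n0 1, le_max_right _ _, fun n hn => h n ((le_max_left _ _).trans hn)⟩

lemma card_init (n0 : ℕ) (θ : ℝ) (hθ : 0 < θ) : ∀ᶠ N : ℕ in atTop, (n0 : ℝ) ≤ θ * N := by
  filter_upwards [eventually_ge_atTop ⌈n0 / θ⌉₊] with N hN
  have h : (n0 : ℝ) / θ ≤ N := (Nat.le_ceil _).trans (by exact_mod_cast hN)
  rw [div_le_iff₀ hθ] at h
  linarith

open Classical in
/-- discarding an initial segment -/
lemma drop_init (P Q : ℕ → Prop) (n0 : ℕ) (h : ∀ n : ℕ, n0 ≤ n → P n → Q n) (N : ℕ) :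
    (((Finset.Icc 1 N).filter P).card : ℝ) ≤ n0 + ((Finset.Icc 1 N).filter Q).card := by
  have h1 : (Finset.Icc 1 N).filter P ⊆ Finset.range n0 ∪ (Finset.Icc 1 N).filter Q := by
    intro n hn
    rw [Finset.mem_filter] at hn
    rw [Finset.mem_union, Finset.mem_range, Finset.mem_filter]
    rcases lt_or_ge n n0 with h2 | h2
    · exact Or.inl h2
    · exact Or.inr ⟨hn.1, h n h2 hn.2⟩
  have h2 := (Finset.card_le_card h1).trans (Finset.card_union_le _ _)
  rw [Finset.card_range] at h2
  exact_mod_cast h2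

theorem t_ST (hSL : S_SL) : S_ST := by
  classical
  intro θ hθ
  obtain ⟨s, hs1, h⟩ := ((eventually_ge_atTop 1).and (hSL 1 (θ / 2) one_pos (by positivity))).exists
  obtain ⟨n0, hn0, ho⟩ := ord_ge_ev 1
  refine ⟨2 * s, by positivity, ?_⟩
  filter_upwards [h, card_init n0 (θ / 2) (by positivity)] with N hN hN2
  have h1 := drop_init (fun n => 2 * (s : ℝ) < |inc yy n|) (fun n => 1 * (s : ℝ) ≤ |yy (n + s) - yy n - s|) n0 (by
    intro n hn h2
    have m1 : yy n ≤ yy (n + 1) := uf_mono (ho n hn) (SG.ord_mono (by omega) (by omega))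
    have m2 : yy (n + 1) ≤ yy (n + s) := uf_mono (ho (n + 1) (by omega)) (SG.ord_mono (by omega) (by omega))
    have e : inc yy n = yy (n + 1) - yy n := rfl
    rw [e, abs_of_nonneg (by linarith)] at h2
    refine le_trans ?_ (le_abs_self _)
    linarith) N
  refine le_trans (le_of_eq ?_) (h1.trans ?_)
  · congr
  · have : (((Finset.Icc 1 N).filter (fun n => 1 * (s : ℝ) ≤ |yy (n + s) - yy n - s|)).card : ℝ) ≤ θ / 2 * N := by
      refine le_trans (le_of_eq ?_) hN
      congr
    linarith

theorem t_SC (hST : S_ST) : S_SC := by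
  classical
  intro ε θ hε hθ
  obtain ⟨K, hK, h⟩ := hST (θ / 2) (by positivity)
  obtain ⟨n0, hn0, ho⟩ := ord_ge_ev (max (Real.exp 1) (K * (2 * Real.pi * K) / ε))
  filter_upwards [h, card_init n0 (θ / 2) (by positivity)] with N hN hN2
  have hpi := Real.pi_pos
  have h1 := drop_init (fun n => ε < |xx n - inc yy n|) (fun n => K < |inc yy n|) n0 (by
    intro n hn h2
    by_contra hcon
    push Not at hcon
    refine absurd h2 (not_lt.2 ?_)
    have o1 : Real.exp 1 ≤ ord n := (le_max_left _ _).trans (ho n hn)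
    have o2 : K * (2 * Real.pi * K) / ε ≤ ord n := (le_max_right _ _).trans (ho n hn)
    have o3 : 1 ≤ ord n := by linarith [Real.add_one_le_exp (1:ℝ)]
    have o4 : 1 ≤ Real.log (ord n) := by
      rw [Real.le_log_iff_exp_le (by linarith)]; exact o1
    have o5 : ord n ≤ ord (n + 1) := SG.ord_mono (by omega) (by omega)
    obtain ⟨g1, g2⟩ := uf_diff o3 o5
    have e : inc yy n = uf (ord (n + 1)) - uf (ord n) := rfl
    have e2 : xx n = (ord (n + 1) - ord n) * Real.log (ord n) / (2 * Real.pi) := rfl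
    rw [e] at hcon ⊢
    rw [e2]
    have g3 : uf (ord (n + 1)) - uf (ord n) ≤ K := (le_abs_self _).trans hcon
    have g4 : (ord (n + 1) - ord n) * Real.log (ord n) / (2 * Real.pi) ≤ K := g1.trans g3
    have g5 : ord (n + 1) - ord n ≤ 2 * Real.pi * K := by
      rw [div_le_iff₀ (by positivity)] at g4
      have : (ord (n + 1) - ord n) * 1 ≤ (ord (n + 1) - ord n) * Real.log (ord n) :=
        mul_le_mul_of_nonneg_left o4 (by linarith)
      linarith
    have g6 : Real.log (ord (n + 1)) - Real.log (ord n) ≤ (ord (n + 1) - ord n) / ord n := by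
      rw [← Real.log_div (by linarith) (by linarith)]
      refine (Real.log_le_sub_one_of_pos (by apply div_pos <;> linarith)).trans (le_of_eq ?_)
      field_simp
    have g7 : (ord (n + 1) - ord n) * Real.log (ord (n + 1)) / (2 * Real.pi) -
        (ord (n + 1) - ord n) * Real.log (ord n) / (2 * Real.pi) ≤ ε := by
      have s1 : (ord (n + 1) - ord n) * Real.log (ord (n + 1)) / (2 * Real.pi) -
        (ord (n + 1) - ord n) * Real.log (ord n) / (2 * Real.pi) =
        (ord (n + 1) - ord n) * (Real.log (ord (n + 1)) - Real.log (ord n)) / (2 * Real.pi) := by ring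
      rw [s1]
      have s2 : (ord (n + 1) - ord n) * (Real.log (ord (n + 1)) - Real.log (ord n)) ≤
          (2 * Real.pi * K) * ((2 * Real.pi * K) / ord n) := by
        apply mul_le_mul g5 _ _ (by positivity)
        · refine g6.trans (div_le_div_of_nonneg_right g5 (by linarith))
        · rw [sub_nonneg]; exact Real.log_le_log (by linarith) o5
      rw [div_le_iff₀ (by positivity)]
      refine s2.trans ?_
      rw [mul_div_assoc', div_le_iff₀ (by linarith)]
      rw [div_le_iff₀ hε] at o2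
      have := mul_le_mul_of_nonneg_left o2 (show 0 ≤ 2 * Real.pi by positivity)
      linarith
    rw [abs_le]
    constructor <;> linarith) N
  refine le_trans (le_of_eq ?_) (h1.trans ?_)
  · congr
  · have : (((Finset.Icc 1 N).filter (fun n => K < |inc yy n|)).card : ℝ) ≤ θ / 2 * N := by
      refine le_trans (le_of_eq ?_) hN
      congr
    linarith

end

end Pool.Agent.V8Lead.OR
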