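import Pool.Agent.V8Lead.OR.Loc

/-! Project OR (lead): from the windows to the sequence of the ordinates. -/

set_option autoImplicit false

namespace Pool.Agent.V8Lead.OR

open Filter Topology MeasureTheory
open SG (NZ ord)
open Pool.Agent.X112.GS (Anti Lln Tight Close inc)

noncomputable section

lemma fin_Icc (P : ℝ → Prop) (A B : ℝ) : volume {t : ℝ | A ≤ t ∧ t ≤ B ∧ P t} ≠ ⊤ := by
  refine ne_top_of_le_ne_top (measure_Icc_lt_top (a := A) (b := B)).ne (measure_mono ?_)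
  rintro t ⟨h1, h2, _⟩
  exact ⟨h1, h2⟩

lemma shift_meas (P : ℝ → Prop) (T h : ℝ) :
    volume.real {t : ℝ | T ≤ t ∧ t ≤ 2 * T ∧ P (t + h)} ≤
      volume.real {t : ℝ | T ≤ t ∧ t ≤ 2 * T ∧ P t} + 2 * |h| := by
  have h0 := abs_nonneg h
  have hsub : {t : ℝ | T ≤ t ∧ t ≤ 2 * T ∧ P (t + h)} ⊆ (fun t => t + h) ⁻¹'
      ({t : ℝ | T ≤ t ∧ t ≤ 2 * T ∧ P t} ∪ (Set.Icc (T - |h|) T ∪ Set.Icc (2 * T) (2 * T + |h|))) := by
    rintro t ⟨h1, h2, h3⟩
    have h4 := neg_abs_le h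
    have h5 := le_abs_self h
    by_cases a : T ≤ t + h
    · by_cases b : t + h ≤ 2 * T
      · exact Or.inl ⟨a, b, h3⟩
      · push Not at b
        exact Or.inr (Or.inr ⟨b.le, by simp only; linarith⟩)
    · push Not at a
      exact Or.inr (Or.inl ⟨by simp only; linarith, a.le⟩)
  have hfin : volume ({t : ℝ | T ≤ t ∧ t ≤ 2 * T ∧ P t} ∪ (Set.Icc (T - |h|) T ∪ Set.Icc (2 * T) (2 * T + |h|))) ≠ ⊤ := by
    refine (measure_union_lt_top (fin_Icc P T (2 * T)).lt_top (measure_union_lt_top ?_ ?_)).ne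
    · exact measure_Icc_lt_top
    · exact measure_Icc_lt_top
  have h6 : volume ((fun t => t + h) ⁻¹'
      ({t : ℝ | T ≤ t ∧ t ≤ 2 * T ∧ P t} ∪ (Set.Icc (T - |h|) T ∪ Set.Icc (2 * T) (2 * T + |h|)))) =
      volume ({t : ℝ | T ≤ t ∧ t ≤ 2 * T ∧ P t} ∪ (Set.Icc (T - |h|) T ∪ Set.Icc (2 * T) (2 * T + |h|))) :=
    measure_preimage_add_right volume h _
  have h7 : volume.real {t : ℝ | T ≤ t ∧ t ≤ 2 * T ∧ P (t + h)} ≤
      volume.real ({t : ℝ | T ≤ t ∧ t ≤ 2 * T ∧ P t} ∪ (Set.Icc (T - |h|) T ∪ Set.Icc (2 * T) (2 * T + |h|))) := by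
    unfold Measure.real
    rw [← h6]
    exact ENNReal.toReal_mono (by rw [h6]; exact hfin) (measure_mono hsub)
  refine h7.trans ((measureReal_union_le _ _).trans ?_)
  have h8 : volume.real (Set.Icc (T - |h|) T ∪ Set.Icc (2 * T) (2 * T + |h|)) ≤ 2 * |h| := by
    refine (measureReal_union_le _ _).trans ?_
    rw [Real.volume_real_Icc_of_le (by linarith), Real.volume_real_Icc_of_le (by linarith)]
    linarith
  linarith

/-- the transfer to initial segments of the sequence -/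
theorem transfer (hUI : S_UI) (hDY : S_DY) (θ : ℝ) (hθ : 0 < θ) : ∃ K0 : ℝ, 1 ≤ K0 ∧ ∀ K : ℝ, K0 ≤ K → ∃ ε : ℝ,
    0 < ε ∧ ∀ (ι : Type) (Bad : ι → ℕ → Prop),
    (∀ᶠ T : ℝ in atTop, ∀ i, ∃ E : Set ℝ, E ⊆ Set.Icc T (2 * T) ∧ volume.real E ≤ ε * T ∧
      ∀ n : ℕ, 1 ≤ n → T + 1 < ord n → ord n ≤ 2 * T - 1 → Bad i n →
        Set.Icc (ord n - 2 * Real.pi * K / Real.log T) (ord n + 2 * Real.pi * K / Real.log T) ⊆ E) →
    ∀ᶠ N : ℕ in atTop, ∀ i, ((@Finset.filter ℕ (Bad i) (Classical.decPred _) (Finset.Icc 1 N)).card : ℝ) ≤ θ * N := by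
  classical
  obtain ⟨C, hC, hDY⟩ := hDY
  obtain ⟨K0, hK0, hUI⟩ := hUI (θ / C) (by positivity)
  refine ⟨K0, hK0, fun K hK => ?_⟩
  obtain ⟨ε, hε, hUI⟩ := hUI K hK
  refine ⟨ε, hε, fun ι Bad hE => ?_⟩
  have h1 := hDY (θ / C) (by positivity) ι Bad (by
    filter_upwards [hE, hUI] with T t1 t2 i
    obtain ⟨E, e1, e2, e3⟩ := t1 i
    refine le_trans ?_ (t2 E e1 e2)
    apply Nat.cast_le.2
    apply Finset.card_le_card
    intro n hn
    rw [Finset.mem_filter] at hn ⊢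
    exact ⟨hn.1, e3 n (Finset.mem_Icc.1 hn.1).1 hn.2.1 hn.2.2.1 hn.2.2.2⟩)
  filter_upwards [h1] with N hN i
  refine le_trans (le_of_eq ?_) ((hN i).trans (le_of_eq ?_))
  · congr
  · field_simp

lemma Wc_eq (T s t : ℝ) : Wc T s t = (NZ (t + s * (2 * Real.pi / Real.log T)) : ℝ) - NZ t := by
  unfold Wc
  congr 3
  ring

/-- counting near an ordinate -/
lemma near_ord {n : ℕ} (hn : 1 ≤ n) {t w : ℝ} (h : |t - ord n| < w) :
    |(NZ t : ℝ) - n| ≤ (NZ (t + w) : ℝ) - NZ (t - w) := by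
  rw [abs_lt] at h
  have hw : 0 < w := by linarith [h.1, h.2]
  have h1 : (NZ (t - w) : ℝ) ≤ NZ t := by exact_mod_cast SG.NZ_mono (by linarith)
  have h2 : (NZ t : ℝ) ≤ NZ (t + w) := by exact_mod_cast SG.NZ_mono (by linarith)
  have h3 : (n : ℝ) ≤ NZ (t + w) := by
    exact_mod_cast (SG.ord_le_iff hn _).1 (by linarith)
  have h4 : (NZ (t - w) : ℝ) ≤ n := by
    have : ¬ n ≤ NZ (t - w) := by
      rw [← SG.ord_le_iff hn]
      linarith
    exact_mod_cast (by omega : NZ (t - w) ≤ n)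
  rw [abs_le]
  constructor <;> linarith

end

end Pool.Agent.V8Lead.OR
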