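import Pool.Agent.V8Lead.OR.Stm2

set_option autoImplicit false

/-!
Project OR (lead), third part: translates of the zeros cannot be matched.
-/

namespace Pool.Agent.V8Lead.OR

open Filter Topology MeasureTheory
open SG (NZ ord)

noncomputable section

/-- AB: the window counts of two different systems of translates differ -/
def S_AB : Prop := ∀ (k : ℕ) (a b : Fin k → ℝ), (∀ π : Equiv.Perm (Fin k), a ≠ b ∘ π) → ∀ Y ε : ℝ, 0 < Y → 0 < ε →
  ∃ s0 : ℝ, 1 ≤ s0 ∧ ∀ s : ℝ, s0 ≤ s → ∀ᶠ T : ℝ in atTop,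
    volume.real {t : ℝ | T ≤ t ∧ t ≤ 2 * T ∧ |∑ i, Wc T s (t - a i) - ∑ i, Wc T s (t - b i)| ≤ Y} ≤ ε * T

/-- MT: two different systems of `k` translates of the ordinates cannot be matched: in almost every window of `H` mean
spacings at least `m` points of the first system are not matched -/
def S_MT : Prop := ∀ (k : ℕ) (a b : Fin k → ℝ), (∀ π : Equiv.Perm (Fin k), a ≠ b ∘ π) → ∀ (m : ℕ) (w θ : ℝ), 0 < θ →
  ∃ H : ℝ, 0 < H ∧ ∀ᶠ T : ℝ in atTop, ∀ σ : Fin k × ℕ → Fin k × ℕ,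
    Set.InjOn σ {p | 1 ≤ p.2 ∧ |(ord p.2 + a p.1) - (ord (σ p).2 + b (σ p).1)| ≤ w / Real.log T} →
    volume.real {t : ℝ | T ≤ t ∧ t ≤ 2 * T ∧ {p : Fin k × ℕ | 1 ≤ p.2 ∧ t < ord p.2 + a p.1 ∧
      ord p.2 + a p.1 ≤ t + H / Real.log T ∧
      w / Real.log T < |(ord p.2 + a p.1) - (ord (σ p).2 + b (σ p).1)|}.ncard < m} ≤ θ * T

end

end Pool.Agent.V8Lead.OR
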